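import Mathlib
import Pool.Agent.Work.MP_b0497c_an.Disp.Defs

set_option autoImplicit false

/-!
The Euler equations on the torus with an energy conserving differential operator with constant
coefficients.
-/

namespace Pool.Agent.Work.MP_b0497c_an.Diff

open Set MeasureTheory RealInnerProductSpace Pool.Agent.Work.MP_b0497c_an
open Pool.Agent.Work.MP_b0497c_an.Dec (cube phase vec)

/-- `x² + y²` for `k = (x, y, z)`. -/
def hor (k : Fin 3 → ℤ) : ℤ := k 0 ^ 2 + k 1 ^ 2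

/-- `x² + y² + z²` for `k = (x, y, z)`. -/
def len (k : Fin 3 → ℤ) : ℤ := k 0 ^ 2 + k 1 ^ 2 + k 2 ^ 2

/-- The polynomials `(x² + y²)² - z²` and `x y (x² - y²)`. -/
def P (i : Fin 2) (k : Fin 3 → ℤ) : ℤ :=
  if i = 0 then hor k ^ 2 - k 2 ^ 2 else k 0 * k 1 * (k 0 ^ 2 - k 1 ^ 2)

/-- The polynomials `z (x² - y²)` and `x y z`. -/
def O (j : Fin 2) (k : Fin 3 → ℤ) : ℤ :=
  if j = 0 then k 2 * (k 0 ^ 2 - k 1 ^ 2) else k 0 * k 1 * k 2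

/-- The 16 polynomials `(x² + y² + z²) ^ (10 + a) z ^ (2 b) P i O j`. -/
def mono (s : Fin 2 × Fin 2 × Fin 2 × Fin 2) (k : Fin 3 → ℤ) : ℤ :=
  len k ^ (10 + (s.1 : ℕ)) * k 2 ^ (2 * (s.2.1 : ℕ)) * (P s.2.2.1 k * O s.2.2.2 k)

/-- The linear combinations of the 16 polynomials. -/
noncomputable def scal (θ : Fin 2 × Fin 2 × Fin 2 × Fin 2 → ℝ) (k : Fin 3 → ℤ) : ℝ :=
  ∑ s, θ s * (mono s k : ℝ)

/-- The horizontal vector `(-y, x, 0)`, orthogonal to `k`. -/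
noncomputable def tv (k : Fin 3 → ℤ) : EuclideanSpace ℝ (Fin 3) := !₂[-(k 1 : ℝ), (k 0 : ℝ), 0]

/-- The vector `(-x z, -y z, x² + y²)`, orthogonal to `k` and `(-y, x, 0)`. -/
noncomputable def sv (k : Fin 3 → ℤ) : EuclideanSpace ℝ (Fin 3) :=
  !₂[-((k 0 : ℝ) * k 2), -((k 1 : ℝ) * k 2), (hor k : ℝ)]

/-- The polynomial `(x² + y² + z²) (z (x² - y²) + 2 x y z)`. -/
noncomputable def qq (k : Fin 3 → ℤ) : ℝ := ((len k * (O 0 k + 2 * O 1 k) : ℤ) : ℝ)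

/-- The polynomial `(x² + y² + z²) ((x² + y²)² - z²) (x² - y² + 2 x y)`. -/
noncomputable def rr (k : Fin 3 → ℤ) : ℝ :=
  ((len k * P 0 k * (k 0 ^ 2 - k 1 ^ 2 + 2 * (k 0 * k 1)) : ℤ) : ℝ)

/-- The symbol (a matrix whose entries are odd polynomials in `k`). -/
noncomputable def dsym (θ : Fin 2 × Fin 2 × Fin 2 × Fin 2 → ℝ) (k : Fin 3 → ℤ)
    (c : EuclideanSpace ℝ (Fin 3)) : EuclideanSpace ℝ (Fin 3) :=
  scal θ k • c + ((qq k * ⟪tv k, c⟫) • tv k + rr k • (⟪tv k, c⟫ • sv k + ⟪sv k, c⟫ • tv k))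

end Pool.Agent.Work.MP_b0497c_an.Diff
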