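import Mathlib
import Pool.Agent.Work.MP_b0497c_an.Disp.Stmts
import Pool.Agent.Work.MP_b0497c_an.Diff.Defs

set_option autoImplicit false

/-!
Euler equations with a dispersive differential operator: list of claims.
-/

namespace Pool.Agent.Work.MP_b0497c_an.Diff

open Set MeasureTheory RealInnerProductSpace Pool.Agent.Work.MP_b0497c_an
open Pool.Agent.Work.MP_b0497c_an.Dec (cube phase vec)
open Pool.Agent.Work.MP_b0497c_an.Disp (IsSolution IsSymbol IsDatum IsHat X rk rx kn en cp fr Res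
  nsq conv Sn pres tor ez hat)

/-! ### General symbols with a nonresonant eigenframe -/

/-- An eigenframe `f` of the symbol `B` with the eigenvalues `l`, nonresonant on the chain. -/
structure IsFrame (B : (Fin 3 → ℤ) → E3 → E3) (f : Fin 2 → (Fin 3 → ℤ) → E3)
    (l : Fin 2 → (Fin 3 → ℤ) → ℝ) (κ : ℝ) : Prop where
  norm : ∀ k, ¬ (k 0 = 0 ∧ k 1 = 0) → ∀ j, ‖f j k‖ = 1
  perp : ∀ k, ¬ (k 0 = 0 ∧ k 1 = 0) → ∀ j, ⟪vec k, f j k⟫ = 0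
  orth : ∀ k, ¬ (k 0 = 0 ∧ k 1 = 0) → ⟪f 0 k, f 1 k⟫ = 0
  eig : ∀ k, ¬ (k 0 = 0 ∧ k 1 = 0) → ∀ j, B k (f j k) = l j k • f j k
  chain : ∀ k ∈ X, ∀ j, f j k = fr j k
  zero : ∀ k ∈ X, l 0 k = 0
  nonres : ∀ n p j i, 1 ≤ n → ¬ (p 0 = 0 ∧ p 1 = 0) → ¬ ((kn n - p) 0 = 0 ∧ (kn n - p) 1 = 0) →
    ¬ Res n p j i → (‖vec p‖ + ‖vec (kn n - p)‖) ^ 4 ≤ κ * |l j p + l i (kn n - p)|

/-- G. The life span of the coefficients. -/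
def ClaimLife : Prop := ∀ (N : ℕ) (κ m₀ E₀ : ℝ), 0 < κ → 0 < m₀ → ∃ c : ℝ, 0 < c ∧
  ∀ (B : (Fin 3 → ℤ) → E3 → E3) (f : Fin 2 → (Fin 3 → ℤ) → E3)
    (l : Fin 2 → (Fin 3 → ℤ) → ℝ) (A Ω T : ℝ) (h : ℝ → (Fin 3 → ℤ) → E3 → ℂ),
    IsFrame B f l κ → IsSymbol (fun k c => Ω • B k c) → 0 < A → A ≤ c * Ω → 0 < T →
    IsHat (fun k c => Ω • B k c) T (A ^ 2 * E₀) h → nsq (h 0 (kn N)) = A ^ 2 * m₀ →
    (∀ n, N < n → ∀ c, h 0 (kn n) c = 0) → c * A * T ≤ 1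

/-! ### The differential operator -/

/-- D1. The symbol is a symbol. -/
def ClaimSymbol : Prop := ∀ (θ : Fin 2 × Fin 2 × Fin 2 × Fin 2 → ℝ) (Ω : ℝ),
  IsSymbol (fun k c => Ω • dsym θ k c)

/-- The eigenvalues on the chain. -/
noncomputable def mu (j : Fin 2) (k : Fin 3 → ℤ) : ℝ := if j = 0 then 0 else qq k * hor k

/-- Eigenframes of the symbol, up to the scalar part. -/
structure IsPreFrame (f : Fin 2 → (Fin 3 → ℤ) → E3) (m : Fin 2 → (Fin 3 → ℤ) → ℝ) : Prop where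
  norm : ∀ k, ¬ (k 0 = 0 ∧ k 1 = 0) → ∀ j, ‖f j k‖ = 1
  perp : ∀ k, ¬ (k 0 = 0 ∧ k 1 = 0) → ∀ j, ⟪vec k, f j k⟫ = 0
  orth : ∀ k, ¬ (k 0 = 0 ∧ k 1 = 0) → ⟪f 0 k, f 1 k⟫ = 0
  eig : ∀ θ k, ¬ (k 0 = 0 ∧ k 1 = 0) → ∀ j, dsym θ k (f j k) = (scal θ k + m j k) • f j k
  chain : ∀ k, ¬ (k 0 = 0 ∧ k 1 = 0) → k 2 ≠ 0 → P 0 k = 0 → ∀ j, f j k = fr j k ∧ m j k = mu j k
  plane : ∀ k, ¬ (k 0 = 0 ∧ k 1 = 0) → k 2 = 0 → ∀ j,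
    |m j k| = |rr k| * (hor k * Real.sqrt (hor k))

/-- D2. There are eigenframes. -/
def ClaimPreFrame : Prop := ∃ f m, IsPreFrame f m

/-- D3. The generic lower bound. -/
def ClaimMeas : Prop := ∀ (S : Type) [Countable S]
  (v : S → (Fin 2 × Fin 2 × Fin 2 × Fin 2 → ℝ)) (c w M : S → ℝ), (∀ s, 0 < w s) →
  (∀ s, 0 < M s) → (∀ s, ∃ i, M s ≤ |v s i|) → Summable (fun s => w s / M s) →
  ∀ᵐ θ : Fin 2 × Fin 2 × Fin 2 × Fin 2 → ℝ, ∃ κ : ℝ, 0 < κ ∧ ∀ s,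
    w s ≤ κ * |∑ i, θ i * v s i + c s|

/-- D4. The sum over all pairs. -/
def ClaimSum : Prop := Summable (fun s : ℕ × (Fin 3 → ℤ) × Fin 2 × Fin 2 =>
  (((‖vec s.2.1‖ + ‖vec (kn s.1 - s.2.1)‖) ^ 6)⁻¹ : ℝ))

/-- D5. One of the polynomials is large. -/
def ClaimBig : Prop := ∃ c : ℝ, 0 < c ∧ ∀ (n : ℕ) (p : Fin 3 → ℤ), 1 ≤ n →
  ¬ (p 0 = 0 ∧ p 1 = 0) → ¬ ((kn n - p) 0 = 0 ∧ (kn n - p) 1 = 0) →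
  ¬ (∀ s, mono s p = 0 ∧ mono s (kn n - p) = 0) →
  ∃ s, c * (‖vec p‖ + ‖vec (kn n - p)‖) ^ 10 ≤ |(mono s p : ℝ) + (mono s (kn n - p) : ℝ)|

/-- D6. The common zeros. -/
def ClaimZero : Prop := ∀ (n : ℕ) (p q : Fin 3 → ℤ), 1 ≤ n → p + q = kn n →
  ¬ (p 0 = 0 ∧ p 1 = 0) → ¬ (q 0 = 0 ∧ q 1 = 0) → (∀ s, mono s p = 0 ∧ mono s q = 0) →
  (p ∈ X ∧ q ∈ X) ∨
  (p 2 = 0 ∧ q ∈ X ∧ (hor p = 2 ^ (n + 1) ∨ hor p = 2 ^ (n + 2)) ∧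
    |p 0 ^ 2 - p 1 ^ 2 + 2 * (p 0 * p 1)| = hor p) ∨
  (q 2 = 0 ∧ p ∈ X ∧ (hor q = 2 ^ (n + 1) ∨ hor q = 2 ^ (n + 2)) ∧
    |q 0 ^ 2 - q 1 ^ 2 + 2 * (q 0 * q 1)| = hor q)

/-- D7. The frequencies on the chain. -/
def ClaimChain : Prop := ∃ C : ℝ, 0 < C ∧ ∀ (n : ℕ) (p : Fin 3 → ℤ) (j i : Fin 2), 1 ≤ n →
  p ∈ cp n → ¬ Res n p j i →
  (‖vec p‖ + ‖vec (kn n - p)‖) ^ 4 ≤ C * |mu j p + mu i (kn n - p)|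

/-- D8. The frequencies on the plane. -/
def ClaimPlane : Prop := ∃ C : ℝ, 0 < C ∧ ∀ (n : ℕ) (p q : Fin 3 → ℤ) (i : Fin 2) (x : ℝ),
  1 ≤ n → p + q = kn n → p 2 = 0 → q ∈ X → (hor p = 2 ^ (n + 1) ∨ hor p = 2 ^ (n + 2)) →
  |p 0 ^ 2 - p 1 ^ 2 + 2 * (p 0 * p 1)| = hor p →
  |x| = |rr p| * (hor p * Real.sqrt (hor p)) →
  (‖vec p‖ + ‖vec q‖) ^ 4 ≤ C * |x + mu i q|

/-- D9. Generic operators are nonresonant. -/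
def ClaimFrame : Prop := ∃ f m, IsPreFrame f m ∧
  ∀ᵐ θ : Fin 2 × Fin 2 × Fin 2 × Fin 2 → ℝ, ∃ κ : ℝ, 0 < κ ∧
    IsFrame (dsym θ) f (fun j k => scal θ k + m j k) κ

/-! ### Main theorem -/

/-- The main theorem. -/
def ClaimMain : Prop := ∀ᵐ θ : Fin 2 × Fin 2 × Fin 2 × Fin 2 → ℝ,
  ∀ v : E3 → E3, IsDatum v →
  (∃ k ∈ X, (∫ x in cube, Real.cos (phase k x) • v x ≠ 0) ∨
    ∫ x in cube, Real.sin (phase k x) • v x ≠ 0) →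
  ∃ c : ℝ, 0 < c ∧ ∀ A Ω : ℝ, 0 < A → A ≤ c * Ω →
    (∀ (T : ℝ) (u u' : ℝ → E3 → E3), IsSolution (fun k c => Ω • dsym θ k c) T u →
      IsSolution (fun k c => Ω • dsym θ k c) T u' →
      (∀ x, u 0 x = A • v x) → (∀ x, u' 0 x = A • v x) → ∀ t ∈ Ico 0 T, u t = u' t) ∧
    ∃ Ts : ℝ, 0 < Ts ∧ c * A * Ts ≤ 1 ∧ ∀ T, 0 < T →
      ((∃ u, IsSolution (fun k c => Ω • dsym θ k c) T u ∧ ∀ x, u 0 x = A • v x) ↔ T ≤ Ts)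

end Pool.Agent.Work.MP_b0497c_an.Diff
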