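import Mathlib
import Pool.Agent.Work.MP_b0497c_an.Diff.Stmts
import Pool.Agent.Work.MP_b0497c_an.Disp.Kn

set_option autoImplicit false

/-!
D6: the common zeros.
-/

namespace Pool.Agent.Work.MP_b0497c_an.Diff

open Set Pool.Agent.Work.MP_b0497c_an
open Pool.Agent.Work.MP_b0497c_an.Disp (X kn kn_two kn_sq kn_succ0 kn_succ1 kn_rep)

namespace Zero

theorem hor_pos {p : Fin 3 → ℤ} (h : ¬ (p 0 = 0 ∧ p 1 = 0)) : 1 ≤ hor p := by
  unfold hor
  by_contra hc
  apply h
  have h0 := sq_nonneg (p 0)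
  have h1 := sq_nonneg (p 1)
  have e0 : p 0 ^ 2 = 0 := by omega
  have e1 : p 1 ^ 2 = 0 := by omega
  exact ⟨pow_eq_zero_iff (two_ne_zero) |>.1 e0, pow_eq_zero_iff (two_ne_zero) |>.1 e1⟩

theorem len_eq (p : Fin 3 → ℤ) : len p = hor p + p 2 ^ 2 := rfl

theorem len_pos {p : Fin 3 → ℤ} (h : ¬ (p 0 = 0 ∧ p 1 = 0)) : 1 ≤ len p := by
  rw [len_eq]
  have := hor_pos h
  have h2 := sq_nonneg (p 2)
  linarith

/-- Zeros of the polynomials. -/
theorem zeros {p : Fin 3 → ℤ} (h : ¬ (p 0 = 0 ∧ p 1 = 0))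
    (hPO : ∀ i j, P i p * O j p = 0) : p 2 = 0 ∨ (P 0 p = 0 ∧ P 1 p = 0) := by
  by_cases hP : P 0 p = 0 ∧ P 1 p = 0
  · exact Or.inr hP
  left
  have hO : O 0 p = 0 ∧ O 1 p = 0 := by
    rw [not_and_or] at hP
    rcases hP with h0 | h1
    · exact ⟨(mul_eq_zero.1 (hPO 0 0)).resolve_left h0, (mul_eq_zero.1 (hPO 0 1)).resolve_left h0⟩
    · exact ⟨(mul_eq_zero.1 (hPO 1 0)).resolve_left h1, (mul_eq_zero.1 (hPO 1 1)).resolve_left h1⟩
  by_contra hz
  apply h
  have a0 : p 2 * (p 0 ^ 2 - p 1 ^ 2) = 0 := by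
    have := hO.1; rwa [O, if_pos rfl] at this
  have a1 : p 0 * p 1 * p 2 = 0 := by
    have := hO.2; rwa [O, if_neg (by decide)] at this
  have b0 := (mul_eq_zero.1 a0).resolve_left hz
  have b1 := (mul_eq_zero.1 a1).resolve_right hz
  rcases mul_eq_zero.1 b1 with c | c
  · refine ⟨c, ?_⟩
    rw [c] at b0
    have : p 1 ^ 2 = 0 := by linarith
    exact pow_eq_zero_iff (two_ne_zero) |>.1 this
  · refine ⟨?_, c⟩
    rw [c] at b0
    have : p 0 ^ 2 = 0 := by linarith
    exact pow_eq_zero_iff (two_ne_zero) |>.1 this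

theorem mono_zero {p : Fin 3 → ℤ} (h : ¬ (p 0 = 0 ∧ p 1 = 0)) (i j : Fin 2)
    (hm : mono (0, 0, i, j) p = 0) : P i p * O j p = 0 := by
  unfold mono at hm
  simp only [Fin.val_zero, add_zero, mul_zero, pow_zero, mul_one] at hm
  have h1 := len_pos h
  exact (mul_eq_zero.1 hm).resolve_left (pow_ne_zero _ (by omega))

theorem P0_eq (p : Fin 3 → ℤ) : P 0 p = hor p ^ 2 - p 2 ^ 2 := by
  rw [P, if_pos rfl]

theorem P1_eq (p : Fin 3 → ℤ) : P 1 p = p 0 * p 1 * (p 0 ^ 2 - p 1 ^ 2) := by
  rw [P, if_neg (by decide)]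

theorem P0_zero {p : Fin 3 → ℤ} (h : P 0 p = 0) : p 2 = hor p ∨ p 2 = -hor p := by
  rw [P0_eq] at h
  have : p 2 ^ 2 = hor p ^ 2 := by linarith
  exact sq_eq_sq_iff_eq_or_eq_neg.1 this

/-- The wave vectors of the chain are on the axes or the diagonals. -/
theorem kn_axis (n : ℕ) : kn n 0 * kn n 1 * (kn n 0 ^ 2 - kn n 1 ^ 2) = 0 := by
  induction n with
  | zero => rfl
  | succ n ih =>
    rw [kn_succ0, kn_succ1]
    have : (kn n 0 - kn n 1) * (kn n 0 + kn n 1) * ((kn n 0 - kn n 1) ^ 2 - (kn n 0 + kn n 1) ^ 2)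
        = -4 * (kn n 0 * kn n 1 * (kn n 0 ^ 2 - kn n 1 ^ 2)) := by ring
    rw [this, ih, mul_zero]

/-- The value of `x² - y² + 2 x y`. -/
theorem rel_of_axis {x y : ℤ} (h : x * y * (x ^ 2 - y ^ 2) = 0) :
    |x ^ 2 - y ^ 2 + 2 * (x * y)| = x ^ 2 + y ^ 2 := by
  have h1 : (x ^ 2 - y ^ 2 + 2 * (x * y)) ^ 2 = (x ^ 2 + y ^ 2) ^ 2 := by
    have : (x ^ 2 - y ^ 2 + 2 * (x * y)) ^ 2 =
        (x ^ 2 + y ^ 2) ^ 2 + 4 * (x * y * (x ^ 2 - y ^ 2)) := by ring
    rw [this, h]; ring
  have h2 : |x ^ 2 - y ^ 2 + 2 * (x * y)| = |x ^ 2 + y ^ 2| := (sq_eq_sq_iff_abs_eq_abs _ _).1 h1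
  rw [h2, abs_of_nonneg (by positivity)]

/-- The case of one mode in the plane. -/
theorem caseA (n : ℕ) (p q : Fin 3 → ℤ) (hpq : p + q = kn n)
    (hp : ¬ (p 0 = 0 ∧ p 1 = 0)) (hq : ¬ (q 0 = 0 ∧ q 1 = 0)) (hpz : p 2 = 0)
    (hq0 : P 0 q = 0) (hq1 : P 1 q = 0) :
    p 2 = 0 ∧ q ∈ X ∧ (hor p = 2 ^ (n + 1) ∨ hor p = 2 ^ (n + 2)) ∧
    |p 0 ^ 2 - p 1 ^ 2 + 2 * (p 0 * p 1)| = hor p := by
  have e0 : p 0 + q 0 = kn n 0 := congrFun hpq 0
  have e1 : p 1 + q 1 = kn n 1 := congrFun hpq 1
  have e2 : p 2 + q 2 = kn n 2 := congrFun hpq 2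
  have hs := kn_sq n
  have hax := kn_axis n
  rw [kn_two, hpz, zero_add] at e2
  have hq2 : hor q = 2 ^ n := by
    have h1 := hor_pos hq
    have h2 : (0 : ℤ) < 2 ^ n := by positivity
    rcases P0_zero hq0 with h | h <;> linarith
  have hqX : q ∈ X := by
    refine ⟨n, hq2, ?_⟩
    rw [e2, abs_of_pos (by positivity)]
  refine ⟨hpz, hqX, ?_⟩
  have hq3 : q 0 ^ 2 + q 1 ^ 2 = 2 ^ n := hq2
  set a := kn n 0
  set b := kn n 1
  have hp0 : p 0 = a - q 0 := by linarith
  have hp1 : p 1 = b - q 1 := by linarith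
  unfold hor
  rcases kn_rep n _ _ hq3 with ⟨h1, h2⟩ | ⟨h1, h2⟩ | ⟨h1, h2⟩ | ⟨h1, h2⟩
  · exfalso
    apply hp
    rw [hp0, hp1, h1, h2]
    exact ⟨sub_self _, sub_self _⟩
  · have x0 : p 0 = a - b := by rw [hp0, h1]
    have x1 : p 1 = b + a := by rw [hp1, h2]; ring
    rw [x0, x1]
    refine ⟨Or.inl ?_, ?_⟩
    · rw [pow_succ (2 : ℤ) n, ← hs]; ring
    · apply rel_of_axis
      have : (a - b) * (b + a) * ((a - b) ^ 2 - (b + a) ^ 2) = -4 * (a * b * (a ^ 2 - b ^ 2)) := by
        ring
      rw [this, hax, mul_zero]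
  · have x0 : p 0 = 2 * a := by rw [hp0, h1]; ring
    have x1 : p 1 = 2 * b := by rw [hp1, h2]; ring
    rw [x0, x1]
    refine ⟨Or.inr ?_, ?_⟩
    · rw [pow_add (2 : ℤ) n 2, ← hs]; ring
    · apply rel_of_axis
      have : (2 * a) * (2 * b) * ((2 * a) ^ 2 - (2 * b) ^ 2) = 16 * (a * b * (a ^ 2 - b ^ 2)) := by
        ring
      rw [this, hax, mul_zero]
  · have x0 : p 0 = a + b := by rw [hp0, h1]; ring
    have x1 : p 1 = b - a := by rw [hp1, h2]
    rw [x0, x1]
    refine ⟨Or.inl ?_, ?_⟩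
    · rw [pow_succ (2 : ℤ) n, ← hs]; ring
    · apply rel_of_axis
      have : (a + b) * (b - a) * ((a + b) ^ 2 - (b - a) ^ 2) = -4 * (a * b * (a ^ 2 - b ^ 2)) := by
        ring
      rw [this, hax, mul_zero]

theorem axis_cases {x y : ℤ} (h : x * y * (x ^ 2 - y ^ 2) = 0) :
    x = 0 ∨ y = 0 ∨ x = y ∨ x = -y := by
  rcases mul_eq_zero.1 h with h | h
  · rcases mul_eq_zero.1 h with h | h
    · exact Or.inl h
    · exact Or.inr (Or.inl h)
  · have : x ^ 2 = y ^ 2 := by linarith
    rcases sq_eq_sq_iff_eq_or_eq_neg.1 this with h | h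
    · exact Or.inr (Or.inr (Or.inl h))
    · exact Or.inr (Or.inr (Or.inr h))

/-- Signs `(+, -)`. -/
theorem perp_case {x y u v a b : ℤ} (hx : x + u = a) (hy : y + v = b)
    (hab : a * b * (a ^ 2 - b ^ 2) = 0) (hxy : x * y * (x ^ 2 - y ^ 2) = 0)
    (huv0 : ¬ (u = 0 ∧ v = 0)) (hpos : 0 < a ^ 2 + b ^ 2)
    (hperp : u * a + v * b = 0) : u ^ 2 + v ^ 2 = a ^ 2 + b ^ 2 ∧
      x ^ 2 + y ^ 2 = 2 * (a ^ 2 + b ^ 2) := by
  have hsum : x ^ 2 + y ^ 2 = (u ^ 2 + v ^ 2) + (a ^ 2 + b ^ 2) := by
    have e1 : x = a - u := by linarith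
    have e2 : y = b - v := by linarith
    rw [e1, e2]
    linear_combination (-2) * hperp
  suffices h : u ^ 2 + v ^ 2 = a ^ 2 + b ^ 2 by
    exact ⟨h, by rw [hsum, h]; ring⟩
  have hxe : x = a - u := by linarith
  have hye : y = b - v := by linarith
  rcases axis_cases hab with h | h | h | h
  · -- a = 0
    subst h
    have hb : b ≠ 0 := by
      rintro rfl
      norm_num at hpos
    have hv : v = 0 := by
      have : v * b = 0 := by linarith
      exact (mul_eq_zero.1 this).resolve_right hb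
    have hu : u ≠ 0 := fun hu => huv0 ⟨hu, hv⟩
    subst hv
    rcases axis_cases hxy with h | h | h | h
    · exact absurd (by linarith) hu
    · exact absurd (by linarith) hb
    · have : u = -b := by linarith
      rw [this]; ring
    · have : u = b := by linarith
      rw [this]; ring
  · -- b = 0
    subst h
    have ha : a ≠ 0 := by
      rintro rfl
      norm_num at hpos
    have hu : u = 0 := by
      have : u * a = 0 := by linarith
      exact (mul_eq_zero.1 this).resolve_right ha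
    have hv : v ≠ 0 := fun hv => huv0 ⟨hu, hv⟩
    subst hu
    rcases axis_cases hxy with h | h | h | h
    · exact absurd (by linarith) ha
    · exact absurd (by linarith) hv
    · have : v = -a := by linarith
      rw [this]; ring
    · have : v = a := by linarith
      rw [this]; ring
  · -- a = b
    subst h
    have ha : a ≠ 0 := by
      rintro rfl
      norm_num at hpos
    have huv : v = -u := by
      have : (u + v) * a = 0 := by linarith
      have := (mul_eq_zero.1 this).resolve_right ha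
      linarith
    have hu : u ≠ 0 := fun hu => huv0 ⟨hu, by rw [huv, hu, neg_zero]⟩
    subst huv
    rcases axis_cases hxy with h | h | h | h
    · have : u = a := by linarith
      rw [this]; ring
    · have : u = -a := by linarith
      rw [this]; ring
    · exact absurd (by linarith) hu
    · exact absurd (by linarith) ha
  · -- a = -b
    subst h
    have hb : b ≠ 0 := by
      rintro rfl
      norm_num at hpos
    have huv : v = u := by
      have : (v - u) * b = 0 := by linarith
      have := (mul_eq_zero.1 this).resolve_right hb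
      linarith
    have hu : u ≠ 0 := fun hu => huv0 ⟨hu, by rw [huv, hu]⟩
    subst huv
    rcases axis_cases hxy with h | h | h | h
    · have : v = -b := by linarith
      rw [this]; ring
    · have : v = b := by linarith
      rw [this]; ring
    · exact absurd (by linarith) hb
    · exact absurd (by linarith) hu

/-- Signs `(+, +)`. -/
theorem orth_case {x y u v a b : ℤ} (hx : x + u = a) (hy : y + v = b)
    (hab : a * b * (a ^ 2 - b ^ 2) = 0) (hxy : x * y * (x ^ 2 - y ^ 2) = 0)
    (hxy0 : ¬ (x = 0 ∧ y = 0))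
    (huv0 : ¬ (u = 0 ∧ v = 0)) (horth : x * u + y * v = 0) :
    2 * (u ^ 2 + v ^ 2) = a ^ 2 + b ^ 2 ∧ 2 * (x ^ 2 + y ^ 2) = a ^ 2 + b ^ 2 := by
  have hsum : (x ^ 2 + y ^ 2) + (u ^ 2 + v ^ 2) = a ^ 2 + b ^ 2 := by
    rw [← hx, ← hy]
    linear_combination (-2) * horth
  suffices h : x ^ 2 + y ^ 2 = u ^ 2 + v ^ 2 by
    exact ⟨by linarith, by linarith⟩
  have hue : u = a - x := by linarith
  have hve : v = b - y := by linarith
  have hlin : x ^ 2 + y ^ 2 = a * x + b * y := by
    rw [hue, hve] at horth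
    linear_combination (-1) * horth
  rw [hue, hve] at huv0 ⊢
  suffices h : 2 * (a * x + b * y) = a ^ 2 + b ^ 2 by
    linear_combination h
  rcases axis_cases hab with h | h | h | h
  · subst h
    rcases axis_cases hxy with h | h | h | h
    · subst h
      have : y * (b - y) = 0 := by linear_combination (-1) * hlin
      rcases mul_eq_zero.1 this with h | h
      · exact absurd ⟨rfl, h⟩ hxy0
      · exact absurd ⟨by ring, h⟩ huv0
    · subst h
      have : x ^ 2 = 0 := by linear_combination hlin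
      exact absurd ⟨pow_eq_zero_iff two_ne_zero |>.1 this, rfl⟩ hxy0
    · subst h
      have : x * (2 * x - b) = 0 := by linear_combination hlin
      rcases mul_eq_zero.1 this with h | h
      · exact absurd ⟨h, h⟩ hxy0
      · have : b = 2 * x := by linarith
        rw [this]; ring
    · subst h
      have : y * (2 * y - b) = 0 := by linear_combination hlin
      rcases mul_eq_zero.1 this with h | h
      · exact absurd ⟨by rw [h, neg_zero], h⟩ hxy0
      · have : b = 2 * y := by linarith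
        rw [this]; ring
  · subst h
    rcases axis_cases hxy with h | h | h | h
    · subst h
      have : y ^ 2 = 0 := by linear_combination hlin
      exact absurd ⟨rfl, pow_eq_zero_iff two_ne_zero |>.1 this⟩ hxy0
    · subst h
      have : x * (a - x) = 0 := by linear_combination (-1) * hlin
      rcases mul_eq_zero.1 this with h | h
      · exact absurd ⟨h, rfl⟩ hxy0
      · exact absurd ⟨h, by ring⟩ huv0
    · subst h
      have : x * (2 * x - a) = 0 := by linear_combination hlin
      rcases mul_eq_zero.1 this with h | h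
      · exact absurd ⟨h, h⟩ hxy0
      · have : a = 2 * x := by linarith
        rw [this]; ring
    · subst h
      have : y * (2 * y + a) = 0 := by linear_combination hlin
      rcases mul_eq_zero.1 this with h | h
      · exact absurd ⟨by rw [h, neg_zero], h⟩ hxy0
      · have : a = -2 * y := by linarith
        rw [this]; ring
  · subst h
    rcases axis_cases hxy with h | h | h | h
    · subst h
      have : y * (a - y) = 0 := by linear_combination (-1) * hlin
      rcases mul_eq_zero.1 this with h | h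
      · exact absurd ⟨rfl, h⟩ hxy0
      · have : a = y := by linarith
        rw [this]; ring
    · subst h
      have : x * (a - x) = 0 := by linear_combination (-1) * hlin
      rcases mul_eq_zero.1 this with h | h
      · exact absurd ⟨h, rfl⟩ hxy0
      · have : a = x := by linarith
        rw [this]; ring
    · subst h
      have : 2 * x * (x - a) = 0 := by linear_combination hlin
      rcases mul_eq_zero.1 this with h | h
      · have : x = 0 := by linarith
        exact absurd ⟨this, this⟩ hxy0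
      · exact absurd ⟨by linarith, by linarith⟩ huv0
    · subst h
      have : 2 * y ^ 2 = 0 := by linear_combination hlin
      have h0 : y ^ 2 = 0 := by linarith
      have h1 : y = 0 := pow_eq_zero_iff two_ne_zero |>.1 h0
      exact absurd ⟨by rw [h1, neg_zero], h1⟩ hxy0
  · subst h
    rcases axis_cases hxy with h | h | h | h
    · subst h
      have : y * (b - y) = 0 := by linear_combination (-1) * hlin
      rcases mul_eq_zero.1 this with h | h
      · exact absurd ⟨rfl, h⟩ hxy0
      · have : b = y := by linarith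
        rw [this]; ring
    · subst h
      have : x * (-b - x) = 0 := by linear_combination (-1) * hlin
      rcases mul_eq_zero.1 this with h | h
      · exact absurd ⟨h, rfl⟩ hxy0
      · have : b = -x := by linarith
        rw [this]; ring
    · subst h
      have : 2 * x ^ 2 = 0 := by linear_combination hlin
      have h0 : x ^ 2 = 0 := by linarith
      have h1 : x = 0 := pow_eq_zero_iff two_ne_zero |>.1 h0
      exact absurd ⟨h1, h1⟩ hxy0
    · subst h
      have : 2 * y * (y - b) = 0 := by linear_combination hlin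
      rcases mul_eq_zero.1 this with h | h
      · have : y = 0 := by linarith
        exact absurd ⟨by rw [this, neg_zero], this⟩ hxy0
      · exact absurd ⟨by linarith, by linarith⟩ huv0

/-- The case of signs `(+, -)` for modes. -/
theorem caseB (n : ℕ) (p q : Fin 3 → ℤ) (hpq : p + q = kn n)
    (hq : ¬ (q 0 = 0 ∧ q 1 = 0)) (hp1 : P 1 p = 0)
    (hp2 : p 2 = hor p) (hq2 : q 2 = -hor q) : p ∈ X ∧ q ∈ X := by
  have e0 : p 0 + q 0 = kn n 0 := congrFun hpq 0
  have e1 : p 1 + q 1 = kn n 1 := congrFun hpq 1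
  have e2 : p 2 + q 2 = kn n 2 := congrFun hpq 2
  have hs := kn_sq n
  have hax := kn_axis n
  rw [kn_two, hp2, hq2] at e2
  rw [P1_eq] at hp1
  have hperp : q 0 * kn n 0 + q 1 * kn n 1 = 0 := by
    have h1 : hor p = (kn n 0 - q 0) ^ 2 + (kn n 1 - q 1) ^ 2 := by
      unfold hor
      rw [← e0, ← e1]; ring
    have h2 : hor q = q 0 ^ 2 + q 1 ^ 2 := rfl
    rw [h1, h2, ← hs] at e2
    linarith
  have h2n : (0 : ℤ) < 2 ^ n := by positivity
  have h := perp_case e0 e1 hax hp1 hq (by rw [hs]; exact h2n) hperp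
  rw [hs] at h
  constructor
  · refine ⟨n + 1, by rw [h.2, pow_succ (2 : ℤ) n]; ring, ?_⟩
    rw [hp2, hor, h.2, abs_of_pos (by positivity), pow_succ (2 : ℤ) n]; ring
  · refine ⟨n, h.1, ?_⟩
    rw [hq2, hor, h.1, abs_neg, abs_of_pos (by positivity)]

end Zero

open Zero in
theorem claimZero : ClaimZero := by
  intro n p q hn hpq hp hq hm
  have e0 : p 0 + q 0 = kn n 0 := congrFun hpq 0
  have e1 : p 1 + q 1 = kn n 1 := congrFun hpq 1
  have e2 : p 2 + q 2 = kn n 2 := congrFun hpq 2
  have hs := kn_sq n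
  have hax := kn_axis n
  rw [kn_two] at e2
  have h2n : (0 : ℤ) < 2 ^ n := by positivity
  rcases zeros hp (fun i j => mono_zero hp i j (hm _).1) with hpz | ⟨hp0, hp1⟩
  · rcases zeros hq (fun i j => mono_zero hq i j (hm _).2) with hqz | ⟨hq0, hq1⟩
    · exfalso
      linarith
    · exact Or.inr (Or.inl (caseA n p q hpq hp hq hpz hq0 hq1))
  · rcases zeros hq (fun i j => mono_zero hq i j (hm _).2) with hqz | ⟨hq0, hq1⟩
    · exact Or.inr (Or.inr (caseA n q p (by rw [add_comm]; exact hpq) hq hp hqz hp0 hp1))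
    · left
      have hpp := hor_pos hp
      have hqp := hor_pos hq
      rcases P0_zero hp0 with hp2 | hp2 <;> rcases P0_zero hq0 with hq2 | hq2
      · rw [hp2, hq2] at e2
        rw [P1_eq] at hp1
        have horth : p 0 * q 0 + p 1 * q 1 = 0 := by
          have h1 : (p 0 + q 0) ^ 2 + (p 1 + q 1) ^ 2 = 2 ^ n := by rw [e0, e1, hs]
          rw [← e2] at h1
          unfold hor at h1
          linarith
        have h := orth_case e0 e1 hax hp1 hp hq horth
        rw [hs] at h
        obtain ⟨m, rfl⟩ : ∃ m, n = m + 1 := ⟨n - 1, by omega⟩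
        have h3 : (2 : ℤ) ^ (m + 1) = 2 ^ m * 2 := pow_succ 2 m
        rw [h3] at h
        have a1 : p 0 ^ 2 + p 1 ^ 2 = 2 ^ m := by linarith [h.2]
        have a2 : q 0 ^ 2 + q 1 ^ 2 = 2 ^ m := by linarith [h.1]
        exact ⟨⟨m, a1, by rw [hp2, hor, a1, abs_of_pos (by positivity)]⟩,
          ⟨m, a2, by rw [hq2, hor, a2, abs_of_pos (by positivity)]⟩⟩
      · exact caseB n p q hpq hq hp1 hp2 hq2
      · exact (caseB n q p (by rw [add_comm]; exact hpq) hp hq1 hq2 hp2).symm
      · exfalso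
        linarith

end Pool.Agent.Work.MP_b0497c_an.Diff
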