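import Mathlib
import Pool.Agent.Work.MP_b0497c_an.Diff.Stmts
import Pool.Agent.Work.MP_b0497c_an.Diff.Zero
import Pool.Agent.Work.MP_b0497c_an.Disp.Kn

set_option autoImplicit false

/-!
D5: one of the polynomials is large.
-/

namespace Pool.Agent.Work.MP_b0497c_an.Diff

open Set Pool.Agent.Work.MP_b0497c_an
open Pool.Agent.Work.MP_b0497c_an.Dec (cube phase vec)
open Pool.Agent.Work.MP_b0497c_an.Disp (X kn kn_two kn_sq kn_succ0 kn_succ1 kn_rep)

namespace Big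

open Zero

theorem axis_of_pow {m : ℕ} {x y : ℤ} (h : x ^ 2 + y ^ 2 = 2 ^ m) :
    x * y * (x ^ 2 - y ^ 2) = 0 := by
  have hax := kn_axis m
  rcases kn_rep m _ _ h with ⟨h1, h2⟩ | ⟨h1, h2⟩ | ⟨h1, h2⟩ | ⟨h1, h2⟩
  · rw [h1, h2]; exact hax
  · rw [h1, h2]; linear_combination hax
  · rw [h1, h2]; linear_combination hax
  · rw [h1, h2]; linear_combination hax

/-- The distance of two points on the axes or diagonals. -/
theorem par {a b x y : ℤ} (hab : a * b * (a ^ 2 - b ^ 2) = 0) (hxy : x * y * (x ^ 2 - y ^ 2) = 0)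
    (hne : ¬ (a - x = 0 ∧ b - y = 0)) (hxy0 : ¬ (x = 0 ∧ y = 0)) :
    a ^ 2 + b ^ 2 ≤ 2 * ((a - x) ^ 2 + (b - y) ^ 2) + 2 * ((a ^ 2 + b ^ 2) - (x ^ 2 + y ^ 2)) ^ 2 := by
  have hM : 1 ≤ x ^ 2 + y ^ 2 := by
    by_contra hc
    apply hxy0
    have h0 := sq_nonneg x
    have h1 := sq_nonneg y
    have e0 : x ^ 2 = 0 := by omega
    have e1 : y ^ 2 = 0 := by omega
    exact ⟨pow_eq_zero_iff (two_ne_zero) |>.1 e0, pow_eq_zero_iff (two_ne_zero) |>.1 e1⟩
  have hD : 1 ≤ (a - x) ^ 2 + (b - y) ^ 2 := by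
    by_contra hc
    apply hne
    have h0 := sq_nonneg (a - x)
    have h1 := sq_nonneg (b - y)
    have e0 : (a - x) ^ 2 = 0 := by omega
    have e1 : (b - y) ^ 2 = 0 := by omega
    exact ⟨pow_eq_zero_iff (two_ne_zero) |>.1 e0, pow_eq_zero_iff (two_ne_zero) |>.1 e1⟩
  set K := a ^ 2 + b ^ 2 with hK
  set M := x ^ 2 + y ^ 2 with hMd
  set D := (a - x) ^ 2 + (b - y) ^ 2 with hDd
  obtain ⟨c, hc⟩ : ∃ c, c = a * y - b * x := ⟨_, rfl⟩
  obtain ⟨d, hd⟩ : ∃ d, d = a * x + b * y := ⟨_, rfl⟩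
  have hK0 : 0 ≤ K := by positivity
  have hcd : d * c * (d ^ 2 - c ^ 2) = 0 := by
    rw [hc, hd]
    linear_combination (a ^ 4 - 6 * a ^ 2 * b ^ 2 + b ^ 4) * hxy -
      (x ^ 4 - 6 * x ^ 2 * y ^ 2 + y ^ 4) * hab
  have h1 : c ^ 2 + d ^ 2 = K * M := by rw [hc, hd, hK, hMd]; ring
  have h2 : D * M = c ^ 2 + (d - M) ^ 2 := by rw [hc, hd, hDd, hMd]; ring
  have h3 : (K - M) ^ 2 = D * (K + M + 2 * d) - 4 * c ^ 2 := by
    rw [hc, hd, hDd, hMd, hK]; ring
  have h4 : D = K + M - 2 * d := by rw [hd, hDd, hMd, hK]; ring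
  by_cases hc0 : c = 0
  · rcases le_total 0 d with hd0 | hd0
    · rw [hc0] at h3
      nlinarith
    · nlinarith [sq_nonneg (K - M)]
  · have h5 : d ^ 2 ≤ c ^ 2 := by
      rcases mul_eq_zero.1 hcd with h | h
      · have := (mul_eq_zero.1 h).resolve_right hc0
        rw [this]
        positivity
      · linarith
    have h6 : K * M ≤ 2 * D * M := by nlinarith [sq_nonneg (d - M)]
    have h7 : K ≤ 2 * D := le_of_mul_le_mul_right h6 (by linarith)
    nlinarith [sq_nonneg (K - M)]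

theorem two_pow_le_sq (n : ℕ) {z : ℤ} (h : (2 : ℤ) ^ n ≤ z) : (2 : ℤ) ^ n ≤ z ^ 2 := by
  have h1 : (1 : ℤ) ≤ 2 ^ n := one_le_pow₀ (by norm_num)
  nlinarith

/-- The other mode is large. -/
theorem other (n : ℕ) (p q : Fin 3 → ℤ) (hpq : p + q = kn n)
    (hp : ¬ (p 0 = 0 ∧ p 1 = 0)) (hq : ¬ (q 0 = 0 ∧ q 1 = 0))
    (hG : ∀ i j, P i p * O j p = 0) : 2 ^ n ≤ 2 * len q := by
  have e0 : p 0 + q 0 = kn n 0 := congrFun hpq 0
  have e1 : p 1 + q 1 = kn n 1 := congrFun hpq 1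
  have e2 : p 2 + q 2 = kn n 2 := congrFun hpq 2
  have hs := kn_sq n
  have hax := kn_axis n
  rw [kn_two] at e2
  have h2n : (0 : ℤ) < 2 ^ n := by positivity
  have hpp := hor_pos hp
  have hqp := hor_pos hq
  rw [len_eq]
  rcases zeros hp hG with h | ⟨h0, h1⟩
  · have hq2 : q 2 = 2 ^ n := by linarith
    have := two_pow_le_sq n hq2.ge
    linarith
  · rcases P0_zero h0 with h | h
    · have hq2 : q 2 = (kn n 0 ^ 2 + kn n 1 ^ 2) - (p 0 ^ 2 + p 1 ^ 2) := by
        rw [hs]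
        unfold hor at h
        linarith
      rw [P1_eq] at h1
      have hx : kn n 0 - p 0 = q 0 := by linarith
      have hy : kn n 1 - p 1 = q 1 := by linarith
      have h5 := par hax h1 (by rw [hx, hy]; exact hq) hp
      rw [hx, hy, ← hq2, hs] at h5
      unfold hor
      linarith
    · have hq2 : (2 : ℤ) ^ n ≤ q 2 := by linarith
      have := two_pow_le_sq n hq2
      linarith

/-- Equal lengths. -/
theorem equal (n : ℕ) (hn : 1 ≤ n) (p q : Fin 3 → ℤ) (hpq : p + q = kn n)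
    (hp : ¬ (p 0 = 0 ∧ p 1 = 0)) (hN : len p = len q)
    (hne : ¬ ∀ i j, P i p * O j p = 0 ∧ P i q * O j q = 0) :
    ∃ (b i j : Fin 2), p 2 ^ (2 * (b : ℕ)) * (P i p * O j p) +
      q 2 ^ (2 * (b : ℕ)) * (P i q * O j q) ≠ 0 := by
  by_contra hcon
  push Not at hcon
  have e0 : p 0 + q 0 = kn n 0 := congrFun hpq 0
  have e1 : p 1 + q 1 = kn n 1 := congrFun hpq 1
  have e2 : p 2 + q 2 = kn n 2 := congrFun hpq 2
  have hs := kn_sq n
  rw [kn_two] at e2
  have h2n : (0 : ℤ) < 2 ^ n := by positivity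
  have hpp := hor_pos hp
  have hb0 : ∀ i j, P i p * O j p + P i q * O j q = 0 := by
    intro i j
    have := hcon 0 i j
    simpa using this
  have hb1 : ∀ i j, p 2 ^ 2 * (P i p * O j p) + q 2 ^ 2 * (P i q * O j q) = 0 := by
    intro i j
    have := hcon 1 i j
    simpa using this
  have hz : p 2 = q 2 := by
    apply by_contra
    intro hzz
    apply hne
    intro i j
    have h1 := hb0 i j
    have h2 := hb1 i j
    have h3 : (p 2 ^ 2 - q 2 ^ 2) * (P i p * O j p) = 0 := by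
      linear_combination h2 - q 2 ^ 2 * h1
    have h4 : p 2 ^ 2 - q 2 ^ 2 ≠ 0 := by
      intro h
      have : p 2 ^ 2 = q 2 ^ 2 := by linarith
      rcases sq_eq_sq_iff_eq_or_eq_neg.1 this with h | h
      · exact hzz h
      · linarith
    have h5 := (mul_eq_zero.1 h3).resolve_left h4
    exact ⟨h5, by linarith⟩
  have hhor : hor p = hor q := by
    rw [len_eq, len_eq, hz] at hN
    linarith
  have hz0 : p 2 ≠ 0 := by
    intro h
    linarith
  have hPq : P 0 q = P 0 p := by rw [P0_eq, P0_eq, hz, hhor]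
  obtain ⟨m, rfl⟩ : ∃ m, n = m + 1 := ⟨n - 1, by omega⟩
  have hpow : (2 : ℤ) ^ (m + 1) = 2 ^ m * 2 := pow_succ 2 m
  have hzm : p 2 = 2 ^ m := by linarith
  by_cases hP0 : P 0 p = 0
  · -- both `P` vanish
    have h1 : hor p = 2 ^ m := by
      have h2m : (0 : ℤ) < 2 ^ m := by positivity
      rcases P0_zero hP0 with h | h <;> linarith
    have a1 : P 1 p = 0 := by
      rw [P1_eq]; exact axis_of_pow h1
    have a2 : P 1 q = 0 := by
      rw [P1_eq]; exact axis_of_pow (hhor ▸ h1)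
    apply hne
    intro i j
    fin_cases i
    · simp only [Fin.zero_eta]
      rw [hPq, hP0, zero_mul, zero_mul]
      exact ⟨rfl, rfl⟩
    · simp only [Fin.mk_one]
      rw [a1, a2, zero_mul, zero_mul]
      exact ⟨rfl, rfl⟩
  · apply hP0
    have h0 : O 0 p + O 0 q = 0 := by
      have := hb0 0 0
      rw [hPq, ← mul_add] at this
      exact (mul_eq_zero.1 this).resolve_left hP0
    have h1 : O 1 p + O 1 q = 0 := by
      have := hb0 0 1
      rw [hPq, ← mul_add] at this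
      exact (mul_eq_zero.1 this).resolve_left hP0
    rw [O, O, if_pos rfl, if_pos rfl, ← hz, ← mul_add] at h0
    rw [O, O, if_neg (by decide), if_neg (by decide), ← hz, ← add_mul] at h1
    have h2 := (mul_eq_zero.1 h0).resolve_left hz0
    have h3 := (mul_eq_zero.1 h1).resolve_right hz0
    have h4 : p 0 ^ 2 + p 1 ^ 2 = q 0 ^ 2 + q 1 ^ 2 := hhor
    have h5 : (p 0 * q 0 + p 1 * q 1) ^ 2 = 0 := by
      have k1 : q 1 ^ 2 = p 0 ^ 2 := by linarith
      have k2 : q 0 ^ 2 = p 1 ^ 2 := by linarith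
      have k3 : q 0 * q 1 = -(p 0 * p 1) := by linarith
      linear_combination p 0 ^ 2 * k2 + p 1 ^ 2 * k1 + 2 * p 0 * p 1 * k3
    have h6 : p 0 * q 0 + p 1 * q 1 = 0 := pow_eq_zero_iff two_ne_zero |>.1 h5
    have h7 : 2 * hor p = 2 ^ (m + 1) := by
      rw [← hs, ← e0, ← e1]
      unfold hor
      linear_combination h4 - 2 * h6
    have h8 : hor p = 2 ^ m := by linarith
    rw [P0_eq, h8, hzm, sub_self]

theorem one_le_abs {x : ℤ} (h : x ≠ 0) : 1 ≤ |x| := Int.one_le_abs h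

/-- The integer estimate. -/
theorem main (n : ℕ) (hn : 1 ≤ n) (p q : Fin 3 → ℤ) (hpq : p + q = kn n)
    (hp : ¬ (p 0 = 0 ∧ p 1 = 0)) (hq : ¬ (q 0 = 0 ∧ q 1 = 0)) (hN : len q ≤ len p)
    (hne : ¬ ∀ i j, P i p * O j p = 0 ∧ P i q * O j q = 0) :
    ∃ s, len p ^ 9 ≤ |mono s p + mono s q| ∨
      (2 ^ n ≤ 2 * len q ∧ len q ^ 10 ≤ |mono s p + mono s q|) := by
  have hlp := len_pos hp
  have hlq := len_pos hq
  have m0 : ∀ (i j : Fin 2) (k : Fin 3 → ℤ), mono (0, 0, i, j) k = len k ^ 10 * (P i k * O j k) := by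
    intro i j k
    simp [mono]
  have m1 : ∀ (i j : Fin 2) (k : Fin 3 → ℤ), mono (1, 0, i, j) k = len k ^ 11 * (P i k * O j k) := by
    intro i j k
    simp [mono]
  rcases hN.eq_or_lt with hEq | hlt
  · obtain ⟨b, i, j, hb⟩ := equal n hn p q hpq hp hEq.symm hne
    refine ⟨(0, b, i, j), Or.inl ?_⟩
    have h1 : mono (0, b, i, j) p + mono (0, b, i, j) q = len p ^ 10 *
        (p 2 ^ (2 * (b : ℕ)) * (P i p * O j p) + q 2 ^ (2 * (b : ℕ)) * (P i q * O j q)) := by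
      simp only [mono, Fin.val_zero, add_zero, hEq]
      ring
    rw [h1, abs_mul, abs_of_nonneg (by positivity : (0 : ℤ) ≤ len p ^ 10)]
    have h2 := one_le_abs hb
    have h3 : len p ^ 9 ≤ len p ^ 10 := pow_le_pow_right₀ hlp (by norm_num)
    have h4 : (0 : ℤ) ≤ len p ^ 10 := by positivity
    nlinarith
  · by_cases hI : ∃ i j, P i p * O j p ≠ 0
    · obtain ⟨i, j, hij⟩ := hI
      by_contra hcon
      push Not at hcon
      have h0 := (hcon (0, 0, i, j)).1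
      have h1 := (hcon (1, 0, i, j)).1
      rw [m0, m0] at h0
      rw [m1, m1] at h1
      set I := P i p * O j p
      set I' := P i q * O j q
      set N := len p
      set N' := len q
      have h2 : N ^ 10 * (N - N') * I = (N ^ 11 * I + N' ^ 11 * I') -
          N' * (N ^ 10 * I + N' ^ 10 * I') := by ring
      have h3 : N ^ 10 ≤ |N ^ 10 * (N - N') * I| := by
        rw [abs_mul, abs_of_nonneg (by
          have : 0 ≤ N - N' := by linarith
          positivity : (0 : ℤ) ≤ N ^ 10 * (N - N'))]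
        have h4 := one_le_abs hij
        have h5 : (0 : ℤ) ≤ N ^ 10 := by positivity
        have h6 : N ^ 10 * 1 ≤ N ^ 10 * (N - N') := mul_le_mul_of_nonneg_left (by linarith) h5
        nlinarith
      rw [h2] at h3
      have h4 : |(N ^ 11 * I + N' ^ 11 * I') - N' * (N ^ 10 * I + N' ^ 10 * I')| ≤
          |N ^ 11 * I + N' ^ 11 * I'| + N' * |N ^ 10 * I + N' ^ 10 * I'| := by
        refine (abs_sub _ _).trans ?_
        rw [abs_mul, abs_of_nonneg (by linarith : (0 : ℤ) ≤ N')]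
      have h5 : N' * |N ^ 10 * I + N' ^ 10 * I'| ≤ N' * N ^ 9 :=
        mul_le_mul_of_nonneg_left h0.le (by linarith)
      have h6 : (1 + N') * N ^ 9 ≤ N * N ^ 9 :=
        mul_le_mul_of_nonneg_right (by linarith) (by positivity)
      have h7 : N * N ^ 9 = N ^ 10 := by ring
      linarith
    · push Not at hI
      have h1 : ∃ i j, P i q * O j q ≠ 0 := by
        by_contra hc
        push Not at hc
        exact hne fun i j => ⟨hI i j, hc i j⟩
      obtain ⟨i, j, hij⟩ := h1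
      refine ⟨(0, 0, i, j), Or.inr ⟨other n p q hpq hp hq hI, ?_⟩⟩
      rw [m0, m0, hI i j, mul_zero, zero_add, abs_mul,
        abs_of_nonneg (by positivity : (0 : ℤ) ≤ len q ^ 10)]
      have h2 := one_le_abs hij
      have h4 : (0 : ℤ) ≤ len q ^ 10 := by positivity
      nlinarith

theorem norm_sq (k : Fin 3 → ℤ) : ‖vec k‖ ^ 2 = ((len k : ℤ) : ℝ) := by
  rw [Tri.FormAux.norm_vec_sq, Fin.sum_univ_three]
  unfold len
  push_cast
  ring

/-- The real estimate. -/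
theorem real (n : ℕ) (hn : 1 ≤ n) (p q : Fin 3 → ℤ) (hpq : p + q = kn n)
    (hp : ¬ (p 0 = 0 ∧ p 1 = 0)) (hq : ¬ (q 0 = 0 ∧ q 1 = 0)) (hN : len q ≤ len p)
    (hne : ¬ ∀ i j, P i p * O j p = 0 ∧ P i q * O j q = 0) :
    ∃ s, (1 / 6 ^ 10 : ℝ) * (‖vec p‖ + ‖vec q‖) ^ 10 ≤ |((mono s p + mono s q : ℤ) : ℝ)| := by
  obtain ⟨s, hs⟩ := main n hn p q hpq hp hq hN hne
  refine ⟨s, ?_⟩
  have hlp := len_pos hp
  have hlq := len_pos hq
  have hlpr : (1 : ℝ) ≤ (len p : ℝ) := by exact_mod_cast hlp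
  have hlqr : (1 : ℝ) ≤ (len q : ℝ) := by exact_mod_cast hlq
  have np := norm_sq p
  have nq := norm_sq q
  have np0 := norm_nonneg (vec p)
  have nq0 := norm_nonneg (vec q)
  have hNr : (len q : ℝ) ≤ (len p : ℝ) := by exact_mod_cast hN
  rcases hs with hs | ⟨h2, hs⟩
  · have hs' : (len p : ℝ) ^ 9 ≤ |((mono s p + mono s q : ℤ) : ℝ)| := by exact_mod_cast hs
    refine le_trans ?_ hs'
    have h1 : (‖vec p‖ + ‖vec q‖) ^ 2 ≤ 4 * (len p : ℝ) := by
      nlinarith [sq_nonneg (‖vec p‖ - ‖vec q‖)]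
    have h3 : (‖vec p‖ + ‖vec q‖) ^ 10 ≤ (4 * (len p : ℝ)) ^ 5 := by
      have : (‖vec p‖ + ‖vec q‖) ^ 10 = ((‖vec p‖ + ‖vec q‖) ^ 2) ^ 5 := by ring
      rw [this]
      exact pow_le_pow_left₀ (by positivity) h1 5
    have h4 : (len p : ℝ) ^ 5 ≤ (len p : ℝ) ^ 9 := pow_le_pow_right₀ hlpr (by norm_num)
    have h5 : (0 : ℝ) ≤ (len p : ℝ) ^ 5 := by positivity
    rw [mul_pow] at h3
    norm_num at h3 ⊢
    nlinarith
  · have hs' : (len q : ℝ) ^ 10 ≤ |((mono s p + mono s q : ℤ) : ℝ)| := by exact_mod_cast hs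
    refine le_trans ?_ hs'
    have e0 : p 0 + q 0 = kn n 0 := congrFun hpq 0
    have e1 : p 1 + q 1 = kn n 1 := congrFun hpq 1
    have e2 : p 2 + q 2 = kn n 2 := congrFun hpq 2
    have hsq := kn_sq n
    have hz := kn_two n
    have h3 : len p ≤ 2 * (2 ^ n + 4 ^ n) + 2 * len q := by
      have h4 : (2 : ℤ) ^ n + 4 ^ n = kn n 0 ^ 2 + kn n 1 ^ 2 + kn n 2 ^ 2 := by
        rw [hsq, hz, ← pow_mul, mul_comm n 2, pow_mul]
        norm_num
      rw [h4, ← e0, ← e1, ← e2]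
      unfold len
      nlinarith [sq_nonneg (p 0 + 2 * q 0), sq_nonneg (p 1 + 2 * q 1), sq_nonneg (p 2 + 2 * q 2)]
    have h5 : (4 : ℤ) ^ n ≤ 4 * len q ^ 2 := by
      have : (4 : ℤ) ^ n = (2 ^ n) ^ 2 := by rw [← pow_mul, mul_comm n 2, pow_mul]; norm_num
      rw [this]
      have h6 : (0 : ℤ) ≤ 2 ^ n := by positivity
      nlinarith
    have h7 : (2 : ℤ) ^ n ≤ 4 ^ n := pow_le_pow_left₀ (by norm_num) (by norm_num) n
    have h8 : len p ≤ 18 * len q ^ 2 := by nlinarith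
    have h8' : (len p : ℝ) ≤ 18 * (len q : ℝ) ^ 2 := by exact_mod_cast h8
    have h9 : ‖vec p‖ ≤ 5 * (len q : ℝ) := by
      apply abs_le_of_sq_le_sq' _ (by positivity) |>.2
      rw [np]
      nlinarith
    have h10 : ‖vec q‖ ≤ (len q : ℝ) := by
      apply abs_le_of_sq_le_sq' _ (by positivity) |>.2
      rw [nq]
      nlinarith
    have h11 : (‖vec p‖ + ‖vec q‖) ^ 10 ≤ (6 * (len q : ℝ)) ^ 10 :=
      pow_le_pow_left₀ (by positivity) (by linarith) 10
    rw [mul_pow] at h11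
    rw [one_div, inv_mul_le_iff₀ (by positivity)]
    exact h11

end Big

open Big Zero in
theorem claimBig : ClaimBig := by
  refine ⟨1 / 6 ^ 10, by positivity, ?_⟩
  intro n p hn hp hq hne
  set q := kn n - p with hqd
  have hpq : p + q = kn n := by rw [hqd]; abel
  have hlp := len_pos hp
  have hlq := len_pos hq
  have hne' : ¬ ∀ i j, P i p * O j p = 0 ∧ P i q * O j q = 0 := by
    intro h
    apply hne
    rintro ⟨a, b, i, j⟩
    unfold mono
    simp only
    rw [(h i j).1, (h i j).2, mul_zero, mul_zero]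
    exact ⟨rfl, rfl⟩
  rcases le_total (len q) (len p) with h | h
  · obtain ⟨s, hs⟩ := real n hn p q hpq hp hq h hne'
    refine ⟨s, hs.trans (le_of_eq ?_)⟩
    push_cast
    rfl
  · obtain ⟨s, hs⟩ := real n hn q p (by rw [add_comm]; exact hpq) hq hp h
      (fun hh => hne' fun i j => (hh i j).symm)
    refine ⟨s, ?_⟩
    rw [add_comm ‖vec p‖]
    refine hs.trans (le_of_eq ?_)
    push_cast
    rw [add_comm]

end Pool.Agent.Work.MP_b0497c_an.Diff
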