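import Mathlib
import Pool.Agent.Work.MP_b0497c_an.Disp.Eig
import Pool.Agent.Work.MP_b0497c_an.Disp.Kn
import Pool.Agent.Work.MP_b0497c_an.Diff.Stmts

set_option autoImplicit false

/-!
D7: the frequencies on the chain.
-/

namespace Pool.Agent.Work.MP_b0497c_an.Diff

open Set MeasureTheory RealInnerProductSpace Pool.Agent.Work.MP_b0497c_an
open Pool.Agent.Work.MP_b0497c_an.Dec (cube phase vec)
open Pool.Agent.Work.MP_b0497c_an.Disp

namespace ChainP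

/-- The integer frequency. -/
def Z (k : Fin 3 → ℤ) : ℤ := len k * (O 0 k + 2 * O 1 k) * hor k

theorem mu_one (k : Fin 3 → ℤ) : mu 1 k = (Z k : ℝ) := by
  simp [mu, qq, Z]

theorem mu_zero (k : Fin 3 → ℤ) : mu 0 k = 0 := by
  simp [mu]

theorem Z_eq (k : Fin 3 → ℤ) : Z k = (k 0 ^ 2 + k 1 ^ 2 + k 2 ^ 2) *
    (k 2 * (k 0 ^ 2 - k 1 ^ 2 + 2 * (k 0 * k 1))) * (k 0 ^ 2 + k 1 ^ 2) := by
  simp only [Z, len, O, hor, if_true, if_neg (one_ne_zero : (1 : Fin 2) ≠ 0)]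
  ring

theorem Z_rk (k : Fin 3 → ℤ) : Z (rk k) = Z k := by
  rw [Z_eq, Z_eq, kn_rk0, kn_rk1, kn_rk2]
  ring

theorem Z_neg (k : Fin 3 → ℤ) : Z (-k) = -Z k := by
  rw [Z_eq, Z_eq]
  simp only [Pi.neg_apply]
  ring

theorem len_rk (k : Fin 3 → ℤ) : len (rk k) = len k := by
  rw [len, len, kn_rk0, kn_rk1, kn_rk2]
  ring

theorem len_neg (k : Fin 3 → ℤ) : len (-k) = len k := by
  rw [len, len]
  simp only [Pi.neg_apply]
  ring

theorem len_kn (n : ℕ) : len (kn n) = 2 ^ n + 4 ^ n := by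
  have h1 := kn_sq n
  have h2 := kn_two n
  rw [len, h1, h2, ← pow_mul, mul_comm n 2, pow_mul]
  norm_num

theorem uv (n : ℕ) : (kn n 0 ^ 2 - kn n 1 ^ 2) * (kn n 0 * kn n 1) = 0 := by
  induction n with
  | zero => rfl
  | succ n ih =>
    rw [kn_succ0, kn_succ1]
    linear_combination (-4) * ih

theorem w_abs (n : ℕ) : |kn n 0 ^ 2 - kn n 1 ^ 2 + 2 * (kn n 0 * kn n 1)| = 2 ^ n := by
  have h1 := kn_sq n
  have h2 := uv n
  have h3 : (kn n 0 ^ 2 - kn n 1 ^ 2 + 2 * (kn n 0 * kn n 1)) ^ 2 = (2 ^ n) ^ 2 := by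
    rw [← h1]
    linear_combination 4 * h2
  have h4 := (sq_eq_sq_iff_abs_eq_abs _ _).1 h3
  rw [h4, abs_of_pos (by positivity)]

theorem Z_kn (n : ℕ) : |Z (kn n)| = 16 ^ n + 32 ^ n := by
  have h1 := kn_sq n
  have h2 := kn_two n
  have h3 := w_abs n
  have h5 : (0 : ℤ) < 2 ^ n := by positivity
  rw [Z_eq, h1, h2, abs_mul, abs_mul, abs_mul, h3, abs_of_pos h5,
    abs_of_pos (by positivity : (0 : ℤ) < 2 ^ n + (2 ^ n) ^ 2)]
  have e1 : (16 : ℤ) ^ n = (2 ^ n) ^ 4 := by rw [← pow_mul, mul_comm, pow_mul]; norm_num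
  have e2 : (32 : ℤ) ^ n = (2 ^ n) ^ 5 := by rw [← pow_mul, mul_comm, pow_mul]; norm_num
  rw [e1, e2]
  ring

theorem norm_vec (k : Fin 3 → ℤ) : ‖vec k‖ ^ 2 = (len k : ℝ) := by
  rw [← real_inner_self_eq_norm_sq, Eig_inner, (Eig_vec k).1, (Eig_vec k).2.1, (Eig_vec k).2.2]
  simp only [len]
  push_cast
  ring

theorem final (m : ℕ) (p q : Fin 3 → ℤ) (hp : len p ≤ 32 * 4 ^ m) (hq : len q ≤ 32 * 4 ^ m)
    (t : ℤ) (ht : 32 ^ m ≤ |t|) :
    (‖vec p‖ + ‖vec q‖) ^ 4 ≤ 65536 * |(t : ℝ)| := by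
  have h1 : ∀ k : Fin 3 → ℤ, len k ≤ 32 * 4 ^ m → ‖vec k‖ ≤ 8 * 2 ^ m := by
    intro k hk
    have h2 : ‖vec k‖ ^ 2 ≤ 32 * 4 ^ m := by
      rw [norm_vec]
      exact_mod_cast hk
    have h3 : (4 : ℝ) ^ m = (2 ^ m) ^ 2 := by rw [← pow_mul, mul_comm, pow_mul]; norm_num
    rw [h3] at h2
    have h4 : (0 : ℝ) ≤ 8 * 2 ^ m := by positivity
    apply le_of_sq_le_sq _ h4
    nlinarith [sq_nonneg ((2 : ℝ) ^ m)]
  have h5 := h1 p hp
  have h6 := h1 q hq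
  have h7 : ‖vec p‖ + ‖vec q‖ ≤ 16 * 2 ^ m := by linarith
  have h8 : (‖vec p‖ + ‖vec q‖) ^ 4 ≤ (16 * 2 ^ m) ^ 4 := by
    apply pow_le_pow_left₀ _ h7
    positivity
  have h9 : ((16 : ℝ) * 2 ^ m) ^ 4 = 65536 * 16 ^ m := by
    have : (16 : ℝ) ^ m = (2 ^ m) ^ 4 := by rw [← pow_mul, mul_comm, pow_mul]; norm_num
    rw [this]
    ring
  have h10 : (16 : ℝ) ^ m ≤ 32 ^ m := by
    apply pow_le_pow_left₀ <;> norm_num
  have h11 : (32 : ℝ) ^ m ≤ |(t : ℝ)| := by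
    exact_mod_cast ht
  calc (‖vec p‖ + ‖vec q‖) ^ 4 ≤ 65536 * 16 ^ m := by rw [← h9]; exact h8
    _ ≤ 65536 * |(t : ℝ)| := by linarith

theorem pw (m : ℕ) : (0 : ℤ) < 2 ^ m ∧ (2 : ℤ) ^ m ≤ 4 ^ m ∧ (0 : ℤ) < 16 ^ m ∧
    (0 : ℤ) < 32 ^ m ∧ (0 : ℤ) < 4 ^ m := by
  refine ⟨by positivity, ?_, by positivity, by positivity, by positivity⟩
  apply pow_le_pow_left₀ <;> norm_num

/-- The conclusion from data for the two vectors of a pair. -/
theorem pair (m : ℕ) (p q : Fin 3 → ℤ) (hp : len p ≤ 32 * 4 ^ m) (hq : len q ≤ 32 * 4 ^ m)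
    (h1 : 32 ^ m ≤ |Z p|) (h2 : 32 ^ m ≤ |Z q|) (j i : Fin 2) (h00 : ¬ (j = 0 ∧ i = 0))
    (h11 : (j = 1 ∧ i = 1) → 32 ^ m ≤ |Z p + Z q|) :
    (‖vec p‖ + ‖vec q‖) ^ 4 ≤ 65536 * |mu j p + mu i q| := by
  fin_cases j <;> fin_cases i
  · exact absurd ⟨rfl, rfl⟩ h00
  · have := final m p q hp hq (Z q) h2
    change _ ≤ 65536 * |mu 0 p + mu 1 q|
    rw [mu_zero, mu_one, zero_add]
    exact this
  · have := final m p q hp hq (Z p) h1
    change _ ≤ 65536 * |mu 1 p + mu 0 q|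
    rw [mu_zero, mu_one, add_zero]
    exact this
  · have := final m p q hp hq (Z p + Z q) (h11 ⟨rfl, rfl⟩)
    change _ ≤ 65536 * |mu 1 p + mu 1 q|
    rw [mu_one, mu_one]
    push_cast at this
    exact this

end ChainP

open ChainP in
theorem claimChain : ClaimChain := by
  refine ⟨65536, by norm_num, ?_⟩
  intro n p j i hn hp hres
  obtain ⟨m, rfl⟩ : ∃ m, n = m + 1 := ⟨n - 1, by omega⟩
  have h00 : ¬ (j = 0 ∧ i = 0) := fun h => hres (Or.inl ⟨h.1, h.2, hp⟩)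
  have h11 : (p = kn m ∨ p = -rk (kn m)) → ¬ (j = 1 ∧ i = 1) := fun h h' =>
    hres (Or.inr ⟨h'.1, h'.2, by simpa using h⟩)
  obtain ⟨w1, w2, w3, w4, w5⟩ := pw m
  have L0 := len_kn m
  have L1 := len_kn (m + 1)
  have L2 := len_kn (m + 2)
  have Z0 := Z_kn m
  have Z1 := Z_kn (m + 1)
  have Z2 := Z_kn (m + 2)
  rw [pow_succ, pow_succ] at L1 Z1
  rw [pow_succ, pow_succ, pow_succ, pow_succ] at L2 Z2
  have hsum : ∀ a b : ℤ, |a| = 16 ^ m * 16 * 16 + 32 ^ m * 32 * 32 → |b| = 16 ^ m * 16 + 32 ^ m * 32 →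
      32 ^ m ≤ |a + b| := by
    intro a b ha hb
    have := abs_sub_abs_le_abs_sub a (-b)
    rw [abs_neg, sub_neg_eq_add] at this
    linarith
  simp only [cp, Nat.add_sub_cancel, List.mem_cons, List.not_mem_nil, or_false] at hp
  rcases hp with rfl | rfl | rfl | rfl | rfl | rfl
  · have hq : kn (m + 1) - kn m = -rk (kn m) := by
      rw [kn_ext]
      refine ⟨?_, ?_, ?_⟩
      · simp only [Pi.sub_apply, Pi.neg_apply, kn_succ0, kn_rk0]; ring
      · simp only [Pi.sub_apply, Pi.neg_apply, kn_succ1, kn_rk1]; ring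
      · simp only [Pi.sub_apply, Pi.neg_apply, kn_succ2, kn_rk2]; ring
    rw [hq]
    refine pair m _ _ ?_ ?_ ?_ ?_ j i h00 (fun h => absurd h (h11 (Or.inl rfl)))
    · linarith
    · rw [len_neg, len_rk]; linarith
    · linarith
    · rw [Z_neg, abs_neg, Z_rk]; linarith
  · have hq : kn (m + 1) - -rk (kn m) = kn m := by
      rw [kn_ext]
      refine ⟨?_, ?_, ?_⟩
      · simp only [Pi.sub_apply, Pi.neg_apply, kn_succ0, kn_rk0]; ring
      · simp only [Pi.sub_apply, Pi.neg_apply, kn_succ1, kn_rk1]; ring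
      · simp only [Pi.sub_apply, Pi.neg_apply, kn_succ2, kn_rk2]; ring
    rw [hq]
    refine pair m _ _ ?_ ?_ ?_ ?_ j i h00 (fun h => absurd h (h11 (Or.inr rfl)))
    · rw [len_neg, len_rk]; linarith
    · linarith
    · rw [Z_neg, abs_neg, Z_rk]; linarith
    · linarith
  · have hq : kn (m + 1) - kn (m + 1 + 1) = rk (kn (m + 1)) := by
      rw [kn_ext]
      refine ⟨?_, ?_, ?_⟩
      · simp only [Pi.sub_apply, kn_succ0 (m + 1), kn_rk0]; ring
      · simp only [Pi.sub_apply, kn_succ1 (m + 1), kn_rk1]; ring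
      · simp only [Pi.sub_apply, kn_succ2 (m + 1), kn_rk2]; ring
    rw [hq]
    refine pair m _ _ ?_ ?_ ?_ ?_ j i h00 (fun _ => hsum _ _ Z2 ?_)
    · linarith
    · rw [len_rk]; linarith
    · linarith
    · rw [Z_rk]; linarith
    · rw [Z_rk]; exact Z1
  · have hq : kn (m + 1) - rk (kn (m + 1)) = kn (m + 2) := by
      rw [kn_ext]
      refine ⟨?_, ?_, ?_⟩
      · simp only [Pi.sub_apply, kn_succ0 (m + 1), kn_rk0]
      · simp only [Pi.sub_apply, kn_succ1 (m + 1), kn_rk1]; ring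
      · simp only [Pi.sub_apply, kn_succ2 (m + 1), kn_rk2]; ring
    rw [hq]
    refine pair m _ _ ?_ ?_ ?_ ?_ j i h00 (fun _ => ?_)
    · rw [len_rk]; linarith
    · linarith
    · rw [Z_rk]; linarith
    · linarith
    · rw [add_comm]
      refine hsum _ _ Z2 ?_
      rw [Z_rk]; exact Z1
  · have hq : kn (m + 1) - -(rk^[3] (kn (m + 1 + 1))) = rk^[3] (kn (m + 1)) := by
      rw [kn_ext]
      refine ⟨?_, ?_, ?_⟩
      · simp only [Pi.sub_apply, Pi.neg_apply, Function.iterate_succ, Function.iterate_zero,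
          Function.comp, id, kn_rk0, kn_rk1, kn_rk2, kn_succ0 (m + 1), kn_succ1 (m + 1)]; ring
      · simp only [Pi.sub_apply, Pi.neg_apply, Function.iterate_succ, Function.iterate_zero,
          Function.comp, id, kn_rk0, kn_rk1, kn_rk2, kn_succ0 (m + 1), kn_succ1 (m + 1)]; ring
      · simp only [Pi.sub_apply, Pi.neg_apply, Function.iterate_succ, Function.iterate_zero,
          Function.comp, id, kn_rk0, kn_rk1, kn_rk2, kn_succ2 (m + 1)]; ring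
    rw [hq]
    have e1 : rk^[3] (kn (m + 1 + 1)) = rk (rk (rk (kn (m + 2)))) := rfl
    have e2 : rk^[3] (kn (m + 1)) = rk (rk (rk (kn (m + 1)))) := rfl
    rw [e1, e2]
    refine pair m _ _ ?_ ?_ ?_ ?_ j i h00 (fun _ => hsum _ _ ?_ ?_)
    · rw [len_neg, len_rk, len_rk, len_rk]; linarith
    · rw [len_rk, len_rk, len_rk]; linarith
    · rw [Z_neg, abs_neg, Z_rk, Z_rk, Z_rk]; linarith
    · rw [Z_rk, Z_rk, Z_rk]; linarith
    · rw [Z_neg, abs_neg, Z_rk, Z_rk, Z_rk]; exact Z2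
    · rw [Z_rk, Z_rk, Z_rk]; exact Z1
  · have hq : kn (m + 1) - rk^[3] (kn (m + 1)) = -(rk^[3] (kn (m + 1 + 1))) := by
      rw [kn_ext]
      refine ⟨?_, ?_, ?_⟩
      · simp only [Pi.sub_apply, Pi.neg_apply, Function.iterate_succ, Function.iterate_zero,
          Function.comp, id, kn_rk0, kn_rk1, kn_rk2, kn_succ0 (m + 1), kn_succ1 (m + 1)]; ring
      · simp only [Pi.sub_apply, Pi.neg_apply, Function.iterate_succ, Function.iterate_zero,
          Function.comp, id, kn_rk0, kn_rk1, kn_rk2, kn_succ0 (m + 1), kn_succ1 (m + 1)]; ring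
      · simp only [Pi.sub_apply, Pi.neg_apply, Function.iterate_succ, Function.iterate_zero,
          Function.comp, id, kn_rk0, kn_rk1, kn_rk2, kn_succ2 (m + 1)]; ring
    rw [hq]
    have e1 : rk^[3] (kn (m + 1 + 1)) = rk (rk (rk (kn (m + 2)))) := rfl
    have e2 : rk^[3] (kn (m + 1)) = rk (rk (rk (kn (m + 1)))) := rfl
    rw [e1, e2]
    refine pair m _ _ ?_ ?_ ?_ ?_ j i h00 (fun _ => ?_)
    · rw [len_rk, len_rk, len_rk]; linarith
    · rw [len_neg, len_rk, len_rk, len_rk]; linarith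
    · rw [Z_rk, Z_rk, Z_rk]; linarith
    · rw [Z_neg, abs_neg, Z_rk, Z_rk, Z_rk]; linarith
    · rw [add_comm]
      refine hsum _ _ ?_ ?_
      · rw [Z_neg, abs_neg, Z_rk, Z_rk, Z_rk]; exact Z2
      · rw [Z_rk, Z_rk, Z_rk]; exact Z1

end Pool.Agent.Work.MP_b0497c_an.Diff
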