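import Mathlib
import Pool.Agent.Work.MP_b0497c_an.Disp.Core
import Pool.Agent.Work.MP_b0497c_an.Diff.Stmts

set_option autoImplicit false

/-!
Euler equations with a dispersive differential operator: assembly of the main theorem.
-/

namespace Pool.Agent.Work.MP_b0497c_an.Diff

open Set MeasureTheory RealInnerProductSpace Pool.Agent.Work.MP_b0497c_an
open Pool.Agent.Work.MP_b0497c_an.Dec (cube phase vec)
open Pool.Agent.Work.MP_b0497c_an.Disp (IsSolution IsSymbol IsDatum IsHat X rk rx kn en cp fr Res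
  nsq conv Sn pres tor ez hat)
open Pool.Agent.Work.MP_b0497c_an.Disp.DCore

/-- Upper bound for the life span. -/
theorem life (hBasic : Disp.ClaimBasic) (hHatSym : Disp.ClaimHatSym) (hDatum : Disp.ClaimDatum)
    (hKn : Disp.ClaimKn) (hLin : Disp.ClaimLin) (hHat : Disp.ClaimHat) (hLife : ClaimLife)
    (v : E3 → E3) (hv : IsDatum v)
    (hX : ∃ k ∈ X, (∫ x in cube, Real.cos (phase k x) • v x ≠ 0) ∨
      ∫ x in cube, Real.sin (phase k x) • v x ≠ 0) (κ : ℝ) (hκ : 0 < κ) :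
    ∃ c : ℝ, 0 < c ∧ ∀ (B : (Fin 3 → ℤ) → E3 → E3) (f : Fin 2 → (Fin 3 → ℤ) → E3)
      (l : Fin 2 → (Fin 3 → ℤ) → ℝ) (A Ω : ℝ), IsFrame B f l κ →
      IsSymbol (fun k c => Ω • B k c) → 0 < A → A ≤ c * Ω →
      ∀ T, 0 < T → ∀ u, IsSolution (fun k c => Ω • B k c) T u → (∀ x, u 0 x = A • v x) →
      c * A * T ≤ 1 := by
  obtain ⟨N, hN0, hN1⟩ := last_mode hBasic hHatSym hDatum hKn hLin v hv hX
  have hπ : (0 : ℝ) < (2 * Real.pi) ^ 3 := by positivity
  obtain ⟨c, hc, hcL⟩ := hLife N κ (nsq (hat v (kn N)))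
    (((2 * Real.pi) ^ 3)⁻¹ * ∫ x in cube, ‖v x‖ ^ 2) hκ hN0
  refine ⟨c, hc, fun B f l A Ω hF hB hA hAΩ T hT u hu hu0 => ?_⟩
  have e1 : u 0 = fun x => A • v x := funext hu0
  have hH : IsHat (fun k c => Ω • B k c) T
      (A ^ 2 * (((2 * Real.pi) ^ 3)⁻¹ * ∫ x in cube, ‖v x‖ ^ 2)) (fun t => hat (u t)) := by
    refine hHat _ T _ u hT hB hu ?_ ?_
    · intro x
      rw [hu0, hu0, hv.symm, rx_smul]
    · have h1 : ∫ x in cube, ‖u 0 x‖ ^ 2 = A ^ 2 * ∫ x in cube, ‖v x‖ ^ 2 := by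
        rw [← integral_const_mul]
        refine integral_congr_ae (Filter.Eventually.of_forall fun x => ?_)
        simp only [hu0, norm_smul, Real.norm_eq_abs, abs_of_pos hA, mul_pow]
      rw [h1]
      field_simp
  refine hcL B f l A Ω T (fun t => hat (u t)) hF hB hA hAΩ hT hH ?_ ?_
  · simp only [e1, nsq_smul]
  · intro n hn d
    simp only [e1, hat_smul, hN1 n hn d, mul_zero]

/-- The main theorem from the claims. -/
theorem main_of (hBasic : Disp.ClaimBasic) (hHatSym : Disp.ClaimHatSym) (hDatum : Disp.ClaimDatum)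
    (hKn : Disp.ClaimKn) (hLin : Disp.ClaimLin) (hHat : Disp.ClaimHat) (hLife : ClaimLife)
    (hUnique : Disp.ClaimUnique) (hCoeff : Disp.ClaimCoeff) (hBuild : Disp.ClaimBuild)
    (hMax : Disp.ClaimMax) (hSymbol : ClaimSymbol) (hFrame : ClaimFrame) : ClaimMain := by
  obtain ⟨f, m, -, hae⟩ := hFrame
  unfold ClaimMain
  filter_upwards [hae] with θ hθ
  obtain ⟨κ, hκ, hF⟩ := hθ
  intro v hv hX
  obtain ⟨c, hc, hlife⟩ := life hBasic hHatSym hDatum hKn hLin hHat hLife v hv hX κ hκ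
  refine ⟨c, hc, ?_⟩
  intro A Ω hA hAΩ
  have hB := hSymbol θ Ω
  refine ⟨?_, ?_⟩
  · intro T u u' hu hu' h0 h0' t ht
    have h := hUnique _ T T u u' hB hu hu' (fun x => by rw [h0, h0'])
    rw [min_self] at h
    exact funext fun x => h t ht x
  · have hcA : 0 < c * A := mul_pos hc hA
    obtain ⟨Ts, h1, h2, h3⟩ := hMax _ (fun x => A • v x) (1 / (c * A)) hB
      (exists_short hBasic hDatum hCoeff hBuild v hv A _ hB)
      (fun T hT u hu hu0 => by
        rw [le_div_iff₀ hcA, mul_comm]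
        exact hlife _ _ _ A Ω hF hB hA hAΩ T hT u hu hu0)
    refine ⟨Ts, h1, ?_, h3⟩
    rwa [le_div_iff₀ hcA, mul_comm] at h2

end Pool.Agent.Work.MP_b0497c_an.Diff
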