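import Mathlib
import Pool.Agent.Work.MP_b0497c_an.Diff.Stmts
import Pool.Agent.Work.MP_b0497c_an.Disp.Kn
import Pool.Agent.Work.MP_b0497c_an.Disp.Closed

set_option autoImplicit false

/-!
D9. Generic operators are nonresonant.
-/

namespace Pool.Agent.Work.MP_b0497c_an.Diff

open Set MeasureTheory RealInnerProductSpace Pool.Agent.Work.MP_b0497c_an
open Pool.Agent.Work.MP_b0497c_an.Dec (cube phase vec)
open Pool.Agent.Work.MP_b0497c_an.Disp (IsSolution IsSymbol IsDatum IsHat X rk rx kn en cp fr Res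
  nsq conv Sn pres tor ez hat)

namespace FrameAux

theorem P1_kn (n : ℕ) : P 1 (kn n) = 0 := by
  induction n with
  | zero => simp [P, kn]
  | succ n ih =>
    have h : P 1 (kn (n + 1)) = -4 * P 1 (kn n) := by
      simp [P, kn]
      ring
    rw [h, ih, mul_zero]

theorem P1_rk (k : Fin 3 → ℤ) : P 1 (rk k) = P 1 k := by
  simp [P, rk]
  ring

theorem P1_neg (k : Fin 3 → ℤ) : P 1 (-k) = P 1 k := by
  simp [P]

theorem P1_iter (k : Fin 3 → ℤ) (j : ℕ) : P 1 (rk^[j] k) = P 1 k := by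
  induction j with
  | zero => simp
  | succ j ih => rw [Function.iterate_succ_apply', P1_rk, ih]

theorem P1_X {k : Fin 3 → ℤ} (hk : k ∈ X) : P 1 k = 0 := by
  obtain ⟨n, j, h⟩ := (Disp.claimKn.2.1 k).mp hk
  rcases h with rfl | rfl
  · rw [P1_iter, P1_kn]
  · rw [P1_neg, P1_iter, P1_kn]

theorem X_facts {k : Fin 3 → ℤ} (hk : k ∈ X) :
    ¬ (k 0 = 0 ∧ k 1 = 0) ∧ k 2 ≠ 0 ∧ P 0 k = 0 := by
  obtain ⟨n, h1, h2⟩ := hk
  have h3 : (0 : ℤ) < 2 ^ n := by positivity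
  refine ⟨?_, ?_, ?_⟩
  · rintro ⟨a, b⟩
    rw [a, b] at h1
    simp at h1
    omega
  · intro a
    rw [a] at h2
    simp at h2
    omega
  · have h4 : k 2 ^ 2 = (2 ^ n) ^ 2 := by rw [← sq_abs, h2]
    simp only [P, hor, if_true]
    rw [h1, h4, sub_self]

theorem mono_X {k : Fin 3 → ℤ} (hk : k ∈ X) (s : Fin 2 × Fin 2 × Fin 2 × Fin 2) :
    mono s k = 0 := by
  have h : ∀ i : Fin 2, P i k = 0 := by
    intro i
    fin_cases i
    · exact (X_facts hk).2.2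
    · exact P1_X hk
  unfold mono
  rw [h, zero_mul, mul_zero]

theorem scal_zero {k : Fin 3 → ℤ} (h : ∀ s, mono s k = 0)
    (θ : Fin 2 × Fin 2 × Fin 2 × Fin 2 → ℝ) : scal θ k = 0 := by
  unfold scal
  simp [h]

theorem vec_pos {k : Fin 3 → ℤ} (h : ¬ (k 0 = 0 ∧ k 1 = 0)) : 0 < ‖vec k‖ := by
  rw [norm_pos_iff]
  intro h0
  apply h
  have h1 := congrArg (fun v : EuclideanSpace ℝ (Fin 3) => v 0) h0
  have h2 := congrArg (fun v : EuclideanSpace ℝ (Fin 3) => v 1) h0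
  simp [vec] at h1 h2
  exact ⟨h1, h2⟩

/-- The admissible pairs. -/
def Adm (s : ℕ × (Fin 3 → ℤ) × Fin 2 × Fin 2) : Prop :=
  1 ≤ s.1 ∧ ¬ (s.2.1 0 = 0 ∧ s.2.1 1 = 0) ∧
    ¬ ((kn s.1 - s.2.1) 0 = 0 ∧ (kn s.1 - s.2.1) 1 = 0) ∧
    ¬ (∀ i, mono i s.2.1 = 0 ∧ mono i (kn s.1 - s.2.1) = 0)

end FrameAux

open FrameAux in
theorem claimFrame (hPre : ClaimPreFrame) (hMeas : ClaimMeas) (hSum : ClaimSum) (hBig : ClaimBig)
    (hZero : ClaimZero) (hChain : ClaimChain) (hPlane : ClaimPlane) : ClaimFrame := by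
  obtain ⟨f, m, hf⟩ := hPre
  obtain ⟨c, hc, hBig⟩ := hBig
  obtain ⟨C1, hC1, hChain⟩ := hChain
  obtain ⟨C2, hC2, hPlane⟩ := hPlane
  refine ⟨f, m, hf, ?_⟩
  have hpos : ∀ s : {s // Adm s}, 0 < ‖vec s.1.2.1‖ + ‖vec (kn s.1.1 - s.1.2.1)‖ := fun s =>
    add_pos (vec_pos s.2.2.1) (vec_pos s.2.2.2.1)
  have hM := hMeas {s // Adm s}
    (fun s i => (mono i s.1.2.1 : ℝ) + (mono i (kn s.1.1 - s.1.2.1) : ℝ))
    (fun s => m s.1.2.2.1 s.1.2.1 + m s.1.2.2.2 (kn s.1.1 - s.1.2.1))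
    (fun s => (‖vec s.1.2.1‖ + ‖vec (kn s.1.1 - s.1.2.1)‖) ^ 4)
    (fun s => c * (‖vec s.1.2.1‖ + ‖vec (kn s.1.1 - s.1.2.1)‖) ^ 10)
    (fun s => pow_pos (hpos s) 4) (fun s => mul_pos hc (pow_pos (hpos s) 10))
    (fun s => hBig s.1.1 s.1.2.1 s.2.1 s.2.2.1 s.2.2.2.1 s.2.2.2.2) (by
      have h1 := (hSum.comp_injective (Subtype.val_injective (p := Adm))).mul_left c⁻¹
      refine h1.congr fun s => ?_
      have h2 := (hpos s).ne'
      simp only [Function.comp_apply]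
      field_simp)
  filter_upwards [hM] with θ hθ
  obtain ⟨κ, hκ, hθ⟩ := hθ
  have hk1 : κ ≤ max κ (max C1 C2) := le_max_left _ _
  have hk2 : C1 ≤ max κ (max C1 C2) := (le_max_left _ _).trans (le_max_right _ _)
  have hk3 : C2 ≤ max κ (max C1 C2) := (le_max_right _ _).trans (le_max_right _ _)
  refine ⟨max κ (max C1 C2), lt_of_lt_of_le hκ hk1, ?_⟩
  refine ⟨hf.norm, hf.perp, hf.orth, fun k hk j => hf.eig θ k hk j, fun k hk j => ?_,
    fun k hk => ?_, fun n p j i hn hp hq hres => ?_⟩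
  · obtain ⟨h1, h2, h3⟩ := X_facts hk
    exact (hf.chain k h1 h2 h3 j).1
  · obtain ⟨h1, h2, h3⟩ := X_facts hk
    have h4 := (hf.chain k h1 h2 h3 0).2
    simp only [scal_zero (mono_X hk) θ, h4, mu, if_true, add_zero]
  · by_cases hz : ∀ s, mono s p = 0 ∧ mono s (kn n - p) = 0
    · have e1 := scal_zero (fun s => (hz s).1) θ
      have e2 := scal_zero (fun s => (hz s).2) θ
      simp only [e1, e2, zero_add]
      rcases hZero n p (kn n - p) hn (by abel) hp hq hz with ⟨h1, h2⟩ | ⟨h1, h2, h3, h4⟩ |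
        ⟨h1, h2, h3, h4⟩
      · obtain ⟨a1, a2, a3⟩ := X_facts h1
        obtain ⟨b1, b2, b3⟩ := X_facts h2
        rw [(hf.chain p a1 a2 a3 j).2, (hf.chain _ b1 b2 b3 i).2]
        exact (hChain n p j i hn (Disp.claimClosed Disp.claimKn n p hn h1 h2) hres).trans
          (mul_le_mul_of_nonneg_right hk2 (abs_nonneg _))
      · obtain ⟨b1, b2, b3⟩ := X_facts h2
        rw [(hf.chain _ b1 b2 b3 i).2]
        exact (hPlane n p (kn n - p) i (m j p) hn (by abel) h1 h2 h3 h4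
          (hf.plane p hp h1 j)).trans (mul_le_mul_of_nonneg_right hk3 (abs_nonneg _))
      · obtain ⟨a1, a2, a3⟩ := X_facts h2
        rw [(hf.chain _ a1 a2 a3 j).2, add_comm (‖vec p‖), add_comm (mu j p)]
        exact (hPlane n (kn n - p) p j (m i (kn n - p)) hn (by abel) h1 h2 h3 h4
          (hf.plane _ hq h1 i)).trans (mul_le_mul_of_nonneg_right hk3 (abs_nonneg _))
    · have h1 := hθ ⟨(n, p, j, i), hn, hp, hq, hz⟩
      simp only at h1
      have h2 : (∑ s, θ s * ((mono s p : ℝ) + (mono s (kn n - p) : ℝ))) +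
          (m j p + m i (kn n - p)) = scal θ p + m j p + (scal θ (kn n - p) + m i (kn n - p)) := by
        unfold scal
        simp only [mul_add, Finset.sum_add_distrib]
        ring
      rw [h2] at h1
      exact h1.trans (mul_le_mul_of_nonneg_right hk1 (abs_nonneg _))

end Pool.Agent.Work.MP_b0497c_an.Diff
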