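import Mathlib
import Pool.Agent.Work.MP_b0497c_an.Disp.Term
import Pool.Agent.Work.MP_b0497c_an.Disp.Eig
import Pool.Agent.Work.MP_b0497c_an.Disp.Lin
import Pool.Agent.Work.MP_b0497c_an.Disp.Comp
import Pool.Agent.Work.MP_b0497c_an.Disp.Kn
import Pool.Agent.Work.MP_b0497c_an.Diff.Stmts

set_option autoImplicit false

/-!
The nonresonant part of one term, for general symbols.
-/

namespace Pool.Agent.Work.MP_b0497c_an.Diff

open Set MeasureTheory RealInnerProductSpace Pool.Agent.Work.MP_b0497c_an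
open Pool.Agent.Work.MP_b0497c_an.Dec (cube phase vec)
open Pool.Agent.Work.MP_b0497c_an.Disp

/-- Linearity in an orthonormal frame. -/
theorem GLin {B : (Fin 3 → ℤ) → E3 → E3} {f : Fin 2 → (Fin 3 → ℤ) → E3}
    {l : Fin 2 → (Fin 3 → ℤ) → ℝ} {κ : ℝ} (hF : IsFrame B f l κ) (h : E3 → ℂ) (k : Fin 3 → ℤ)
    (hl : ∀ (a b : ℝ) (c d : E3), h (a • c + b • d) = a * h c + b * h d) (hk : h (vec k) = 0)
    (hk0 : ¬ (k 0 = 0 ∧ k 1 = 0)) :
    (∀ c, h c = ⟪f 0 k, c⟫ * h (f 0 k) + ⟪f 1 k, c⟫ * h (f 1 k)) ∧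
    ‖h (f 0 k)‖ ^ 2 + ‖h (f 1 k)‖ ^ 2 = nsq h := by
  have hkv : vec k ≠ 0 := norm_pos_iff.1 (Term_norm_vec_pos hk0)
  have hn := hF.norm k hk0
  have ho := hF.orth k hk0
  have hx := fun c => Eig_complete (vec k) (f 0 k) (f 1 k) c hkv (hn 0) (hn 1) (hF.perp k hk0 0)
    (hF.perp k hk0 1) ho
  have hexp : ∀ c, h c = ⟪f 0 k, c⟫ * h (f 0 k) + ⟪f 1 k, c⟫ * h (f 1 k) := by
    intro c
    have h2 : c = (⟪vec k, c⟫ / ‖vec k‖ ^ 2) • vec k +
        (1 : ℝ) • (⟪f 0 k, c⟫ • f 0 k + ⟪f 1 k, c⟫ • f 1 k) := by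
      rw [one_smul]
      exact hx c
    conv_lhs => rw [h2]
    rw [hl, hl, hk]
    simp
  refine ⟨hexp, ?_⟩
  have he : ∀ i : Fin 3, h (e i) = (f 0 k i : ℝ) * h (f 0 k) + (f 1 k i : ℝ) * h (f 1 k) := by
    intro i
    rw [hexp (e i)]
    have hi : ∀ v : E3, ⟪v, e i⟫ = v i := by
      intro v
      rw [lin_inner]
      fin_cases i <;> simp [e]
    rw [hi, hi]
  have hn0 := hn 0
  have hn1 := hn 1
  have hs0 : f 0 k 0 ^ 2 + f 0 k 1 ^ 2 + f 0 k 2 ^ 2 = 1 := by
    rw [← lin_vec_sq, hn0, one_pow]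
  have hs1 : f 1 k 0 ^ 2 + f 1 k 1 ^ 2 + f 1 k 2 ^ 2 = 1 := by
    rw [← lin_vec_sq, hn1, one_pow]
  rw [lin_inner] at ho
  rw [nsq, he 0, he 1, he 2]
  simp only [lin_norm_sq, Complex.add_re, Complex.add_im, Complex.mul_re, Complex.mul_im,
    Complex.ofReal_re, Complex.ofReal_im, zero_mul, sub_zero, add_zero]
  linear_combination (-(h (f 0 k)).re ^ 2 - (h (f 0 k)).im ^ 2) * hs0 +
    (-(h (f 1 k)).re ^ 2 - (h (f 1 k)).im ^ 2) * hs1 +
    (-2 * (h (f 0 k)).re * (h (f 1 k)).re - 2 * (h (f 0 k)).im * (h (f 1 k)).im) * ho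

/-- The equations for the components in the frame. -/
theorem GComp {B : (Fin 3 → ℤ) → E3 → E3} {f : Fin 2 → (Fin 3 → ℤ) → E3}
    {l : Fin 2 → (Fin 3 → ℤ) → ℝ} {κ : ℝ} (hF : IsFrame B f l κ) (hL : ClaimLin) {Ω T E : ℝ}
    {h : ℝ → (Fin 3 → ℤ) → E3 → ℂ} (hh : IsHat (fun k c => Ω • B k c) T E h)
    (k : Fin 3 → ℤ) (j : Fin 2) (hk : ¬ (k 0 = 0 ∧ k 1 = 0)) :
    ContinuousOn (fun t => conv (h t) k (f j k)) (Ico 0 T) ∧
    ∀ t ∈ Ico 0 T, ‖conv (h t) k (f j k)‖ ≤ ‖vec k‖ * E ∧
      HasDerivWithinAt (fun s => h s k (f j k)) (-Complex.I * conv (h t) k (f j k) -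
        Complex.I * (Ω * l j k) * h t k (f j k)) (Ico 0 T) t := by
  have hn := hF.norm k hk
  have hp := hF.perp k hk
  refine ⟨hh.cont k (f j k) (hp j), ?_⟩
  intro t ht
  constructor
  · have := comp_conv_le hL (h t) E (hh.lin t ht) (hh.div t ht) (hh.sum t ht) k (f j k)
    rw [hn j, mul_one] at this
    exact this
  · have h1 := hh.deriv k (f j k) (hp j) t ht
    have h2 : h t k (Ω • B k (f j k)) = (Ω * l j k) * h t k (f j k) := by
      have h3 := hh.lin t ht k (Ω * l j k) 0 (f j k) 0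
      rw [hF.eig k hk j, smul_smul]
      simpa using h3
    have h4 : -Complex.I * conv (h t) k (f j k) - Complex.I * (Ω * l j k) * h t k (f j k) =
        -Complex.I * conv (h t) k (f j k) -
          Complex.I * h t k ((fun k c => Ω • B k c) k (f j k)) := by
      simp only [h2]
      ring
    rw [h4]
    exact h1

/-- Resonant combinations lie in the chain. -/
theorem GCp {n : ℕ} {p : Fin 3 → ℤ} (hn : 1 ≤ n) (hp : p ∈ cp n) : p ∈ X ∧ kn n - p ∈ X := by
  obtain ⟨m, rfl⟩ : ∃ m, n = m + 1 := ⟨n - 1, by omega⟩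
  have key : ∀ a : Fin 3 → ℤ, ∀ q : Fin 3 → ℤ, (a 0 = q 0 ∧ a 1 = q 1 ∧ a 2 = q 2) → q ∈ X →
      a ∈ X := by
    intro a q h hq
    rw [(kn_ext a q).2 h]
    exact hq
  simp only [cp, List.mem_cons, List.not_mem_nil, or_false, Nat.add_sub_cancel] at hp
  rcases hp with rfl | rfl | rfl | rfl | rfl | rfl
  · refine ⟨kn_mem _, key _ _ ?_ (kn_neg_mem _ (kn_rk_mem _ (kn_mem m)))⟩
    simp [kn_succ, rk]
    ring
  · refine ⟨kn_neg_mem _ (kn_rk_mem _ (kn_mem m)), key _ _ ?_ (kn_mem m)⟩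
    simp [kn_succ, rk]
    ring
  · refine ⟨kn_mem _, key _ _ ?_ (kn_rk_mem _ (kn_mem (m + 1)))⟩
    simp [kn_succ, rk]
    ring_nf
  · refine ⟨kn_rk_mem _ (kn_mem _), key _ _ ?_ (kn_mem (m + 1 + 1))⟩
    simp [kn_succ, rk]
    ring_nf
    simp
  · refine ⟨kn_neg_mem _ (kn_rk_iter_mem _ (kn_mem _) 3), key _ _ ?_
      (kn_rk_iter_mem _ (kn_mem (m + 1)) 3)⟩
    simp [kn_succ, rk]
    ring_nf
    simp
  · refine ⟨kn_rk_iter_mem _ (kn_mem _) 3, key _ _ ?_
      (kn_neg_mem _ (kn_rk_iter_mem _ (kn_mem (m + 1 + 1)) 3))⟩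
    simp [kn_succ, rk]
    ring_nf
    simp

open Classical in
/-- The nonresonant part of a term of the convolution sum. -/
noncomputable def nresG (f : Fin 2 → (Fin 3 → ℤ) → E3) (n : ℕ) (h : (Fin 3 → ℤ) → E3 → ℂ)
    (p : Fin 3 → ℤ) : ℂ :=
  ∑ j : Fin 2, ∑ l : Fin 2, if Res n p j l then 0 else
    (⟪f j p, vec (kn n)⟫ * ⟪f l (kn n - p), vec (en n)⟫ : ℝ) *
      (h p (f j p) * h (kn n - p) (f l (kn n - p)))

open Classical in
/-- The resonant part of a term of the convolution sum. -/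
noncomputable def presG (f : Fin 2 → (Fin 3 → ℤ) → E3) (n : ℕ) (h : (Fin 3 → ℤ) → E3 → ℂ)
    (p : Fin 3 → ℤ) : ℂ :=
  ∑ j : Fin 2, ∑ l : Fin 2, if Res n p j l then
    (⟪f j p, vec (kn n)⟫ * ⟪f l (kn n - p), vec (en n)⟫ : ℝ) *
      (h p (f j p) * h (kn n - p) (f l (kn n - p))) else 0

theorem presG_eq {B : (Fin 3 → ℤ) → E3 → E3} {f : Fin 2 → (Fin 3 → ℤ) → E3}
    {l : Fin 2 → (Fin 3 → ℤ) → ℝ} {κ : ℝ} (hF : IsFrame B f l κ) {n : ℕ} (hn : 1 ≤ n)
    (h : (Fin 3 → ℤ) → E3 → ℂ) (p : Fin 3 → ℤ) : presG f n h p = pres n h p := by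
  unfold presG pres
  refine Finset.sum_congr rfl fun j _ => Finset.sum_congr rfl fun i _ => ?_
  split_ifs with hR
  · have hp : p ∈ cp n := by
      rcases hR with ⟨-, -, h1⟩ | ⟨-, -, h1⟩
      · exact h1
      · rcases h1 with rfl | rfl <;> simp [cp]
    obtain ⟨h1, h2⟩ := GCp hn hp
    rw [hF.chain _ h1, hF.chain _ h2]
  · rfl

/-- The nonresonant part of one term. -/
theorem GTerm (hLin : ClaimLin) (hAx : ClaimAxis)
    (hParts : ClaimParts) {B : (Fin 3 → ℤ) → E3 → E3} {f : Fin 2 → (Fin 3 → ℤ) → E3}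
    {L : Fin 2 → (Fin 3 → ℤ) → ℝ} {κ : ℝ} (hF : IsFrame B f L κ) (hκ : 0 < κ) {Ω T E : ℝ}
    {h : ℝ → (Fin 3 → ℤ) → E3 → ℂ} (t : ℝ) (n : ℕ) (p : Fin 3 → ℤ) (hΩ : 0 < Ω)
    (hh : IsHat (fun k c => Ω • B k c) T E h) (ht : t ∈ Ico 0 T) (hn : 1 ≤ n) :
  ContinuousOn (fun s => nresG f n (h s) p) (Ico 0 T) ∧
  (∀ s ∈ Ico 0 T, h s p (vec (kn n)) * h s (kn n - p) (vec (en n)) =
    nresG f n (h s) p + pres n (h s) p) ∧
  (∀ s ∈ Ico 0 T, ‖nresG f n (h s) p‖ ≤ 4 * ‖vec (kn n)‖ * ‖vec (en n)‖ *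
    (Real.sqrt (nsq (h s p)) * Real.sqrt (nsq (h s (kn n - p))))) ∧
  ‖∫ s in (0 : ℝ)..t, nresG f n (h s) p‖ ≤ 4 * κ / Ω * ‖vec (kn n)‖ * ‖vec (en n)‖ *
    ((‖vec p‖ + ‖vec (kn n - p)‖) ^ 4)⁻¹ *
    (Real.sqrt (nsq (h t p)) * Real.sqrt (nsq (h t (kn n - p))) +
      Real.sqrt (nsq (h 0 p)) * Real.sqrt (nsq (h 0 (kn n - p))) +
      E * ∫ s in (0 : ℝ)..t, (‖vec p‖ * Real.sqrt (nsq (h s (kn n - p))) +
        ‖vec (kn n - p)‖ * Real.sqrt (nsq (h s p)))) := by
  classical
  rw [show (4 * κ / Ω : ℝ) = 4 * (κ / Ω) by ring]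
  have hE : 0 ≤ E := Term_E_nonneg hh ht
  have hsub : Icc 0 t ⊆ Ico 0 T := fun s hs => ⟨hs.1, hs.2.trans_lt ht.2⟩
  set q : Fin 3 → ℤ := kn n - p with hq
  by_cases hax : (p 0 = 0 ∧ p 1 = 0) ∨ (q 0 = 0 ∧ q 1 = 0)
  · -- no modes on the axis
    have hz : ∀ s ∈ Ico 0 T, ∀ c d : E3, h s p c * h s q d = 0 := by
      intro s hs c d
      rcases hax with hp | hp
      · rw [hAx (h s) (hh.lin s hs) (hh.div s hs) (hh.conj s hs) (hh.rot s hs) p hp.1 hp.2 c,
          zero_mul]
      · rw [hAx (h s) (hh.lin s hs) (hh.div s hs) (hh.conj s hs) (hh.rot s hs) q hp.1 hp.2 d,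
          mul_zero]
    have hn0 : ∀ s ∈ Ico 0 T, nresG f n (h s) p = 0 := by
      intro s hs
      unfold nresG
      apply Finset.sum_eq_zero
      intro j _
      apply Finset.sum_eq_zero
      intro l _
      rw [← hq, hz s hs, mul_zero, ite_self]
    have hp0 : ∀ s ∈ Ico 0 T, pres n (h s) p = 0 := by
      intro s hs
      unfold pres
      apply Finset.sum_eq_zero
      intro j _
      apply Finset.sum_eq_zero
      intro l _
      rw [← hq, hz s hs, mul_zero, ite_self]
    refine ⟨?_, ?_, ?_, ?_⟩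
    · exact continuousOn_const.congr hn0
    · intro s hs
      rw [hz s hs, hn0 s hs, hp0 s hs, add_zero]
    · intro s hs
      rw [hn0 s hs, norm_zero]
      positivity
    · have h1 : ∫ s in (0 : ℝ)..t, nresG f n (h s) p = ∫ s in (0 : ℝ)..t, (0 : ℂ) := by
        apply intervalIntegral.integral_congr
        intro s hs
        rw [uIcc_of_le ht.1] at hs
        exact hn0 s (hsub hs)
      rw [h1, intervalIntegral.integral_zero, norm_zero]
      have h2 : 0 ≤ ∫ s in (0 : ℝ)..t, (‖vec p‖ * Real.sqrt (nsq (h s q)) +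
          ‖vec q‖ * Real.sqrt (nsq (h s p))) :=
        intervalIntegral.integral_nonneg ht.1 fun s _ => by positivity
      positivity
  · push Not at hax
    have hpn : ¬ (p 0 = 0 ∧ p 1 = 0) := fun h' => hax.1 h'.1 h'.2
    have hqn : ¬ (q 0 = 0 ∧ q 1 = 0) := fun h' => hax.2 h'.1 h'.2
    have hp1 := hF.norm p hpn
    have hq1 := hF.norm q hqn
    have hlp : ∀ s ∈ Ico 0 T, ∀ j, ‖h s p (f j p)‖ ≤ Real.sqrt (nsq (h s p)) := by
      intro s hs j
      apply Real.le_sqrt_of_sq_le
      have := (hLin (h s p) p (hh.lin s hs p) (hh.div s hs p)).1 (f j p)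
      rwa [hp1 j, one_pow, mul_one] at this
    have hlq : ∀ s ∈ Ico 0 T, ∀ j, ‖h s q (f j q)‖ ≤ Real.sqrt (nsq (h s q)) := by
      intro s hs j
      apply Real.le_sqrt_of_sq_le
      have := (hLin (h s q) q (hh.lin s hs q) (hh.div s hs q)).1 (f j q)
      rwa [hq1 j, one_pow, mul_one] at this
    have hcp : ∀ j, ContinuousOn (fun s => h s p (f j p)) (Ico 0 T) := fun j s hs =>
      (((GComp hF hLin hh p j hpn).2 s hs).2).continuousWithinAt
    have hcq : ∀ j, ContinuousOn (fun s => h s q (f j q)) (Ico 0 T) := fun j s hs =>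
      (((GComp hF hLin hh q j hqn).2 s hs).2).continuousWithinAt
    have hnp : ContinuousOn (fun s => Real.sqrt (nsq (h s p))) (Ico 0 T) := by
      have h1 : ContinuousOn (fun s => Real.sqrt (‖h s p (f 0 p)‖ ^ 2 + ‖h s p (f 1 p)‖ ^ 2))
          (Ico 0 T) := (((hcp 0).norm.pow 2).add ((hcp 1).norm.pow 2)).sqrt
      refine h1.congr fun s hs => ?_
      have := (GLin hF (h s p) p (hh.lin s hs p) (hh.div s hs p) hpn).2
      simp only [← this]
    have hnq : ContinuousOn (fun s => Real.sqrt (nsq (h s q))) (Ico 0 T) := by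
      have h1 : ContinuousOn (fun s => Real.sqrt (‖h s q (f 0 q)‖ ^ 2 + ‖h s q (f 1 q)‖ ^ 2))
          (Ico 0 T) := (((hcq 0).norm.pow 2).add ((hcq 1).norm.pow 2)).sqrt
      refine h1.congr fun s hs => ?_
      have := (GLin hF (h s q) q (hh.lin s hs q) (hh.div s hs q) hqn).2
      simp only [← this]
    set cf : Fin 2 → Fin 2 → ℝ := fun j l =>
      if Res n p j l then 0 else ⟪f j p, vec (kn n)⟫ * ⟪f l q, vec (en n)⟫ with hcf
    have hcfb : ∀ j l, |cf j l| ≤ ‖vec (kn n)‖ * ‖vec (en n)‖ := by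
      intro j l
      simp only [hcf]
      split_ifs
      · rw [abs_zero]
        positivity
      · rw [abs_mul]
        apply mul_le_mul _ _ (abs_nonneg _) (norm_nonneg _)
        · have := abs_real_inner_le_norm (f j p) (vec (kn n))
          rwa [hp1 j, one_mul] at this
        · have := abs_real_inner_le_norm (f l q) (vec (en n))
          rwa [hq1 l, one_mul] at this
    have hnr : ∀ s, nresG f n (h s) p =
        ∑ j : Fin 2, ∑ l : Fin 2, (cf j l : ℂ) * (h s p (f j p) * h s q (f l q)) := by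
      intro s
      unfold nresG
      apply Finset.sum_congr rfl
      intro j _
      apply Finset.sum_congr rfl
      intro l _
      simp only [hcf, ← hq]
      split_ifs
      · simp
      · rfl
    have hcn : ContinuousOn (fun s => nresG f n (h s) p) (Ico 0 T) := by
      simp only [hnr]
      exact continuousOn_finsetSum _ fun j _ => continuousOn_finsetSum _ fun l _ =>
        continuousOn_const.mul ((hcp j).mul (hcq l))
    refine ⟨hcn, ?_, ?_, ?_⟩
    · intro s hs
      have h1 := (GLin hF (h s p) p (hh.lin s hs p) (hh.div s hs p) hpn).1 (vec (kn n))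
      have h2 := (GLin hF (h s q) q (hh.lin s hs q) (hh.div s hs q) hqn).1 (vec (en n))
      rw [h1, h2]
      have h3 : nresG f n (h s) p + pres n (h s) p = ∑ j : Fin 2, ∑ l : Fin 2,
          ((⟪f j p, vec (kn n)⟫ * ⟪f l q, vec (en n)⟫ : ℝ) : ℂ) *
            (h s p (f j p) * h s q (f l q)) := by
        rw [← presG_eq hF hn]
        unfold nresG presG
        rw [← Finset.sum_add_distrib]
        apply Finset.sum_congr rfl
        intro j _
        rw [← Finset.sum_add_distrib]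
        apply Finset.sum_congr rfl
        intro l _
        rw [← hq]
        split_ifs
        · rw [zero_add]
        · rw [add_zero]
      rw [h3]
      simp only [Fin.sum_univ_two]
      push_cast
      ring
    · intro s hs
      rw [hnr s]
      have h1 : ∀ j l : Fin 2, ‖(cf j l : ℂ) * (h s p (f j p) * h s q (f l q))‖ ≤
          ‖vec (kn n)‖ * ‖vec (en n)‖ *
            (Real.sqrt (nsq (h s p)) * Real.sqrt (nsq (h s q))) := by
        intro j l
        rw [norm_mul, norm_mul, Complex.norm_real, Real.norm_eq_abs]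
        exact mul_le_mul (hcfb j l) (mul_le_mul (hlp s hs j) (hlq s hs l) (norm_nonneg _)
          (Real.sqrt_nonneg _)) (by positivity) (by positivity)
      calc ‖∑ j : Fin 2, ∑ l : Fin 2, (cf j l : ℂ) * (h s p (f j p) * h s q (f l q))‖
          ≤ ∑ j : Fin 2, ∑ l : Fin 2, ‖(cf j l : ℂ) * (h s p (f j p) * h s q (f l q))‖ :=
            (norm_sum_le _ _).trans (Finset.sum_le_sum fun j _ => norm_sum_le _ _)
        _ ≤ ∑ j : Fin 2, ∑ l : Fin 2, ‖vec (kn n)‖ * ‖vec (en n)‖ *
            (Real.sqrt (nsq (h s p)) * Real.sqrt (nsq (h s q))) :=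
            Finset.sum_le_sum fun j _ => Finset.sum_le_sum fun l _ => h1 j l
        _ = 4 * ‖vec (kn n)‖ * ‖vec (en n)‖ *
            (Real.sqrt (nsq (h s p)) * Real.sqrt (nsq (h s q))) := by
            simp only [Finset.sum_const, Finset.card_univ, Fintype.card_fin, nsmul_eq_mul]
            push_cast
            ring
    · have hcI : ∀ j l, IntervalIntegrable (fun s => (cf j l : ℂ) *
          (h s p (f j p) * h s q (f l q))) volume 0 t := by
        intro j l
        apply ContinuousOn.intervalIntegrable_of_Icc ht.1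
        exact (continuousOn_const.mul ((hcp j).mul (hcq l))).mono hsub
      set I₀ : ℝ := ∫ s in (0 : ℝ)..t, (‖vec p‖ * Real.sqrt (nsq (h s q)) +
        ‖vec q‖ * Real.sqrt (nsq (h s p))) with hI₀
      have hI₀n : 0 ≤ I₀ := intervalIntegral.integral_nonneg ht.1 fun s _ => by positivity
      set D : ℝ := (‖vec p‖ + ‖vec q‖) ^ 4 with hD
      have hDp : 0 < D := by
        have := Term_norm_vec_pos hpn
        positivity
      set P : ℝ := Real.sqrt (nsq (h t p)) * Real.sqrt (nsq (h t q)) +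
        Real.sqrt (nsq (h 0 p)) * Real.sqrt (nsq (h 0 q)) + E * I₀ with hP
      have hPn : 0 ≤ P := by positivity
      have h0T : (0 : ℝ) ∈ Ico 0 T := ⟨le_rfl, ht.1.trans_lt ht.2⟩
      have hkey : ∀ j l, ‖∫ s in (0 : ℝ)..t, (cf j l : ℂ) *
          (h s p (f j p) * h s q (f l q))‖ ≤
          κ / Ω * ‖vec (kn n)‖ * ‖vec (en n)‖ * D⁻¹ * P := by
        intro j l
        rw [intervalIntegral.integral_const_mul, norm_mul, Complex.norm_real, Real.norm_eq_abs]
        by_cases hR : Res n p j l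
        · have : cf j l = 0 := by simp only [hcf, if_pos hR]
          rw [this, abs_zero, zero_mul]
          positivity
        · have h1 := hF.nonres n p j l hn hpn hqn hR
          have h2 : D ≤ κ * |L j p + L l q| := h1
          have h3 : |Ω * L j p + Ω * L l q| = Ω * |L j p + L l q| := by
            rw [← mul_add, abs_mul, abs_of_pos hΩ]
          have h4 : 0 < |L j p + L l q| := by
            have := hDp.trans_le h2
            exact (mul_pos_iff_of_pos_left hκ).1 this
          have h5 : Ω * L j p + Ω * L l q ≠ 0 := by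
            rw [← abs_pos, h3]
            positivity
          have hcomp1 := GComp hF hLin hh p j hpn
          have hcomp2 := GComp hF hLin hh q l hqn
          have h6 := hParts t (‖vec p‖ * E) (‖vec q‖ * E) (Ω * L j p) (Ω * L l q)
            (fun s => h s p (f j p)) (fun s => h s q (f l q))
            (fun s => -Complex.I * conv (h s) p (f j p))
            (fun s => -Complex.I * conv (h s) q (f l q)) ht.1 h5
            (fun s hs => by
              have := ((hcomp1.2 s (hsub hs)).2).mono hsub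
              push_cast
              exact this)
            (fun s hs => by
              have := ((hcomp2.2 s (hsub hs)).2).mono hsub
              push_cast
              exact this)
            (continuousOn_const.mul (hcomp1.1.mono hsub))
            (continuousOn_const.mul (hcomp2.1.mono hsub))
            (fun s hs => by
              rw [norm_mul, norm_neg, Complex.norm_I, one_mul]
              exact (hcomp1.2 s (hsub hs)).1)
            (fun s hs => by
              rw [norm_mul, norm_neg, Complex.norm_I, one_mul]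
              exact (hcomp2.2 s (hsub hs)).1)
          have h7 : (|Ω * L j p + Ω * L l q|)⁻¹ ≤ κ / Ω * D⁻¹ := by
            rw [h3, mul_inv, div_mul_eq_mul_div, mul_comm, ← div_eq_mul_inv]
            apply div_le_div_of_nonneg_right _ hΩ.le
            rw [← div_eq_mul_inv, inv_eq_one_div, div_le_div_iff₀ h4 hDp, one_mul]
            exact h2
          have h8 : ∫ s in (0 : ℝ)..t, (‖vec p‖ * E * ‖h s q (f l q)‖ +
              ‖vec q‖ * E * ‖h s p (f j p)‖) ≤ E * I₀ := by
            rw [hI₀, ← intervalIntegral.integral_const_mul]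
            apply intervalIntegral.integral_mono_on ht.1
            · apply ContinuousOn.intervalIntegrable_of_Icc ht.1
              exact (((continuousOn_const.mul (hcq l).norm).add
                (continuousOn_const.mul (hcp j).norm))).mono hsub
            · apply ContinuousOn.intervalIntegrable_of_Icc ht.1
              exact (continuousOn_const.mul ((continuousOn_const.mul hnq).add
                (continuousOn_const.mul hnp))).mono hsub
            · intro s hs
              have h9 := hlp s (hsub hs) j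
              have h10 := hlq s (hsub hs) l
              calc ‖vec p‖ * E * ‖h s q (f l q)‖ + ‖vec q‖ * E * ‖h s p (f j p)‖
                  ≤ ‖vec p‖ * E * Real.sqrt (nsq (h s q)) +
                    ‖vec q‖ * E * Real.sqrt (nsq (h s p)) := by gcongr
                _ = E * (‖vec p‖ * Real.sqrt (nsq (h s q)) +
                    ‖vec q‖ * Real.sqrt (nsq (h s p))) := by ring
          have h9 : ‖h t p (f j p)‖ * ‖h t q (f l q)‖ ≤
              Real.sqrt (nsq (h t p)) * Real.sqrt (nsq (h t q)) :=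
            mul_le_mul (hlp t ht j) (hlq t ht l) (norm_nonneg _) (Real.sqrt_nonneg _)
          have h10 : ‖h 0 p (f j p)‖ * ‖h 0 q (f l q)‖ ≤
              Real.sqrt (nsq (h 0 p)) * Real.sqrt (nsq (h 0 q)) :=
            mul_le_mul (hlp 0 h0T j) (hlq 0 h0T l) (norm_nonneg _) (Real.sqrt_nonneg _)
          have h11 : ‖∫ s in (0 : ℝ)..t, h s p (f j p) * h s q (f l q)‖ ≤
              κ / Ω * D⁻¹ * P := by
            refine h6.trans ?_
            have h12 : ‖h t p (f j p)‖ * ‖h t q (f l q)‖ + ‖h 0 p (f j p)‖ *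
                ‖h 0 q (f l q)‖ + ∫ s in (0 : ℝ)..t, (‖vec p‖ * E * ‖h s q (f l q)‖ +
              ‖vec q‖ * E * ‖h s p (f j p)‖) ≤ P := by
              rw [hP]
              linarith
            calc (|Ω * L j p + Ω * L l q|)⁻¹ * (‖h t p (f j p)‖ * ‖h t q (f l q)‖ +
                ‖h 0 p (f j p)‖ * ‖h 0 q (f l q)‖ + ∫ s in (0 : ℝ)..t,
                  (‖vec p‖ * E * ‖h s q (f l q)‖ + ‖vec q‖ * E * ‖h s p (f j p)‖))
                ≤ (|Ω * L j p + Ω * L l q|)⁻¹ * P :=
                  mul_le_mul_of_nonneg_left h12 (by positivity)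
              _ ≤ κ / Ω * D⁻¹ * P := mul_le_mul_of_nonneg_right h7 hPn
          calc |cf j l| * ‖∫ s in (0 : ℝ)..t, h s p (f j p) * h s q (f l q)‖
              ≤ (‖vec (kn n)‖ * ‖vec (en n)‖) * (κ / Ω * D⁻¹ * P) :=
                mul_le_mul (hcfb j l) h11 (norm_nonneg _) (by positivity)
            _ = κ / Ω * ‖vec (kn n)‖ * ‖vec (en n)‖ * D⁻¹ * P := by ring
      have hsum : ∫ s in (0 : ℝ)..t, nresG f n (h s) p = ∑ j : Fin 2, ∑ l : Fin 2,
          ∫ s in (0 : ℝ)..t, (cf j l : ℂ) * (h s p (f j p) * h s q (f l q)) := by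
        simp only [hnr]
        rw [intervalIntegral.integral_finsetSum]
        · apply Finset.sum_congr rfl
          intro j _
          rw [intervalIntegral.integral_finsetSum]
          intro l _
          exact hcI j l
        · intro j _
          apply ContinuousOn.intervalIntegrable_of_Icc ht.1
          exact (continuousOn_finsetSum _ fun l _ =>
            continuousOn_const.mul ((hcp j).mul (hcq l))).mono hsub
      rw [hsum]
      calc ‖∑ j : Fin 2, ∑ l : Fin 2, ∫ s in (0 : ℝ)..t, (cf j l : ℂ) *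
            (h s p (f j p) * h s q (f l q))‖
          ≤ ∑ j : Fin 2, ∑ l : Fin 2, ‖∫ s in (0 : ℝ)..t, (cf j l : ℂ) *
            (h s p (f j p) * h s q (f l q))‖ :=
            (norm_sum_le _ _).trans (Finset.sum_le_sum fun j _ => norm_sum_le _ _)
        _ ≤ ∑ j : Fin 2, ∑ l : Fin 2, κ / Ω * ‖vec (kn n)‖ * ‖vec (en n)‖ * D⁻¹ * P :=
            Finset.sum_le_sum fun j _ => Finset.sum_le_sum fun l _ => hkey j l
        _ = 4 * (κ / Ω) * ‖vec (kn n)‖ * ‖vec (en n)‖ * D⁻¹ * P := by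
            simp only [Finset.sum_const, Finset.card_univ, Fintype.card_fin, nsmul_eq_mul]
            push_cast
            ring

end Pool.Agent.Work.MP_b0497c_an.Diff
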