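import Mathlib
import Pool.Agent.Work.MP_b0497c_an.Diff.Stmts

set_option autoImplicit false

/-!
Item D3: the generic lower bound.
-/

namespace Pool.Agent.Work.MP_b0497c_an.Diff

open Set MeasureTheory

namespace Meas

variable {ι : Type} [Fintype ι] [DecidableEq ι]

/-- The linear map which replaces the coordinate `i` by the linear form `v`. -/
noncomputable def lin (i : ι) (v : ι → ℝ) : (ι → ℝ) →ₗ[ℝ] (ι → ℝ) :=
  Matrix.toLin' ((1 : Matrix ι ι ℝ).updateRow i v)

theorem lin_det (i : ι) (v : ι → ℝ) : LinearMap.det (lin i v) = v i := by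
  unfold lin
  rw [LinearMap.det_toLin', ← Matrix.cramer_transpose_apply, Matrix.transpose_one,
    Matrix.cramer_one]
  rfl

theorem lin_same (i : ι) (v θ : ι → ℝ) : lin i v θ i = ∑ j, θ j * v j := by
  unfold lin
  rw [Matrix.toLin'_apply]
  simp only [Matrix.mulVec, dotProduct, Matrix.updateRow_self]
  exact Finset.sum_congr rfl (fun j _ => mul_comm _ _)

theorem lin_ne (i j : ι) (hij : j ≠ i) (v θ : ι → ℝ) : lin i v θ j = θ j := by
  unfold lin
  rw [Matrix.toLin'_apply]
  simp only [Matrix.mulVec, dotProduct, Matrix.updateRow_ne hij, Matrix.one_apply, ite_mul,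
    one_mul, zero_mul, Finset.sum_ite_eq, Finset.mem_univ, if_true]

/-- The points of the box of size `R` where the affine form is small. -/
def slab (v : ι → ℝ) (c w R : ℝ) : Set (ι → ℝ) :=
  {θ | (∀ i, |θ i| ≤ R) ∧ |∑ i, θ i * v i + c| < w}

theorem volume_slab_le (v : ι → ℝ) (c w M R : ℝ) (hw : 0 < w) (hM : 0 < M) (hR : 0 ≤ R)
    (h : ∃ i, M ≤ |v i|) :
    volume (slab v c w R) ≤ ENNReal.ofReal ((2 * (2 * R) ^ (Fintype.card ι - 1)) * (w / M)) := by
  obtain ⟨i, hi⟩ := h
  have hvi : v i ≠ 0 := by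
    intro h0
    rw [h0, abs_zero] at hi
    linarith
  have hdet : LinearMap.det (lin i v) ≠ 0 := by rw [lin_det]; exact hvi
  have hsub : slab v c w R ⊆ (lin i v) ⁻¹' (Set.pi univ
      (fun j => if j = i then Ioo (-w - c) (w - c) else Icc (-R) R)) := by
    intro θ hθ
    obtain ⟨h1, h2⟩ := hθ
    rw [mem_preimage, Set.mem_pi]
    intro j _
    by_cases hj : j = i
    · rw [if_pos hj, hj, lin_same, mem_Ioo]
      rw [abs_lt] at h2
      constructor <;> linarith [h2.1, h2.2]
    · rw [if_neg hj, lin_ne i j hj, mem_Icc]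
      exact abs_le.1 (h1 j)
  refine (measure_mono hsub).trans ?_
  rw [Measure.addHaar_preimage_linearMap volume hdet, lin_det, volume_pi, Measure.pi_pi,
    ← Finset.mul_prod_erase Finset.univ _ (Finset.mem_univ i), if_pos rfl, Real.volume_Ioo]
  have hprod : ∏ j ∈ Finset.univ.erase i,
      volume (if j = i then Ioo (-w - c) (w - c) else Icc (-R) R) =
      ENNReal.ofReal ((2 * R) ^ (Fintype.card ι - 1)) := by
    rw [Finset.prod_congr rfl (g := fun _ => ENNReal.ofReal (2 * R))]
    · rw [Finset.prod_const, Finset.card_erase_of_mem (Finset.mem_univ i), Finset.card_univ,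
        ENNReal.ofReal_pow (by linarith)]
    · intro j hj
      rw [if_neg (Finset.ne_of_mem_erase hj), Real.volume_Icc]
      congr 1
      ring
  rw [hprod, ← ENNReal.ofReal_mul (by linarith), ← ENNReal.ofReal_mul (abs_nonneg _)]
  apply ENNReal.ofReal_le_ofReal
  rw [abs_inv]
  have h3 : |v i|⁻¹ ≤ M⁻¹ := inv_anti₀ hM hi
  have h4 : 0 ≤ (w - c - (-w - c)) * (2 * R) ^ (Fintype.card ι - 1) := by
    have : w - c - (-w - c) = 2 * w := by ring
    rw [this]
    positivity
  refine (mul_le_mul_of_nonneg_right h3 h4).trans (le_of_eq ?_)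
  rw [div_eq_mul_inv]
  ring

theorem volume_zero (v : ι → ℝ) (c : ℝ) (h : ∃ i, v i ≠ 0) :
    volume {θ : ι → ℝ | ∑ i, θ i * v i + c = 0} = 0 := by
  obtain ⟨i, hvi⟩ := h
  have hdet : LinearMap.det (lin i v) ≠ 0 := by rw [lin_det]; exact hvi
  have hsub : {θ : ι → ℝ | ∑ i, θ i * v i + c = 0} ⊆ (lin i v) ⁻¹' (Set.pi univ
      (fun j => if j = i then {-c} else univ)) := by
    intro θ hθ
    change ∑ i, θ i * v i + c = 0 at hθ
    rw [mem_preimage, Set.mem_pi]
    intro j _
    by_cases hj : j = i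
    · rw [if_pos hj, hj, lin_same, mem_singleton_iff]
      linarith
    · rw [if_neg hj]
      exact mem_univ _
  refine measure_mono_null hsub ?_
  rw [Measure.addHaar_preimage_linearMap volume hdet, volume_pi, Measure.pi_pi,
    Finset.prod_eq_zero (Finset.mem_univ i), mul_zero]
  rw [if_pos rfl]
  exact Real.volume_singleton

theorem generic (S : Type) [Countable S] (v : S → (ι → ℝ)) (c w M : S → ℝ)
    (hw : ∀ s, 0 < w s) (hM : ∀ s, 0 < M s) (hv : ∀ s, ∃ i, M s ≤ |v s i|)
    (hs : Summable (fun s => w s / M s)) :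
    ∀ᵐ θ : ι → ℝ, ∃ κ : ℝ, 0 < κ ∧ ∀ s, w s ≤ κ * |∑ i, θ i * v s i + c s| := by
  have h1 : ∀ R : ℕ, ∀ᵐ θ : ι → ℝ, {s | θ ∈ slab (v s) (c s) (w s) (R : ℝ)}.Finite := by
    intro R
    apply ae_finite_setOfPred_mem
    have hle : ∑' s, volume (slab (v s) (c s) (w s) (R : ℝ)) ≤
        ∑' s, ENNReal.ofReal ((2 * (2 * (R : ℝ)) ^ (Fintype.card ι - 1)) * (w s / M s)) :=
      ENNReal.tsum_le_tsum (fun s =>
        volume_slab_le (v s) (c s) (w s) (M s) R (hw s) (hM s) (Nat.cast_nonneg R) (hv s))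
    refine ne_top_of_le_ne_top ?_ hle
    rw [← ENNReal.ofReal_tsum_of_nonneg]
    · exact ENNReal.ofReal_ne_top
    · intro s
      have := (div_pos (hw s) (hM s)).le
      positivity
    · exact hs.mul_left _
  have h2 : ∀ s, ∀ᵐ θ : ι → ℝ, ∑ i, θ i * v s i + c s ≠ 0 := by
    intro s
    have hne : ∃ i, v s i ≠ 0 := by
      obtain ⟨i, hi⟩ := hv s
      refine ⟨i, fun h0 => ?_⟩
      rw [h0, abs_zero] at hi
      linarith [hM s]
    have := volume_zero (v s) (c s) hne
    rw [ae_iff]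
    simpa using this
  filter_upwards [ae_all_iff.2 h1, ae_all_iff.2 h2] with θ hθ1 hθ2
  obtain ⟨R, hR⟩ := exists_nat_ge (∑ i, |θ i|)
  have hbox : ∀ i, |θ i| ≤ (R : ℝ) := fun i =>
    (Finset.single_le_sum (f := fun i => |θ i|) (fun j _ => abs_nonneg _)
      (Finset.mem_univ i)).trans hR
  have hfin : {s | θ ∈ slab (v s) (c s) (w s) (R : ℝ)}.Finite := hθ1 R
  set Bad := hfin.toFinset with hBad
  have hnn : ∀ s, 0 ≤ w s / |∑ i, θ i * v s i + c s| := fun s =>
    div_nonneg (hw s).le (abs_nonneg _)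
  refine ⟨1 + ∑ s ∈ Bad, w s / |∑ i, θ i * v s i + c s|, ?_, ?_⟩
  · have := Finset.sum_nonneg (s := Bad) (fun s _ => hnn s)
    linarith
  · intro s
    have hpos : 0 < |∑ i, θ i * v s i + c s| := abs_pos.2 (hθ2 s)
    by_cases hsb : s ∈ Bad
    · have h3 : w s / |∑ i, θ i * v s i + c s| ≤
          1 + ∑ s ∈ Bad, w s / |∑ i, θ i * v s i + c s| := by
        have := Finset.single_le_sum (f := fun s => w s / |∑ i, θ i * v s i + c s|)
          (fun j _ => hnn j) hsb
        linarith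
      calc w s = w s / |∑ i, θ i * v s i + c s| * |∑ i, θ i * v s i + c s| := by
            rw [div_mul_cancel₀ _ hpos.ne']
        _ ≤ _ := mul_le_mul_of_nonneg_right h3 hpos.le
    · have h4 : w s ≤ |∑ i, θ i * v s i + c s| := by
        by_contra hlt
        push Not at hlt
        apply hsb
        rw [hBad, Set.Finite.mem_toFinset]
        exact ⟨hbox, hlt⟩
      refine h4.trans ?_
      have := Finset.sum_nonneg (s := Bad) (fun s _ => hnn s)
      nlinarith
end Meas

theorem claimMeas : ClaimMeas := by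
  intro S _ v c w M hw hM hv hs
  exact Meas.generic S v c w M hw hM hv hs

end Pool.Agent.Work.MP_b0497c_an.Diff
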