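import Mathlib
import Pool.Agent.Work.MP_b0497c_an.Diff.Stmts
import Pool.Agent.Work.MP_b0497c_an.Disp.Kn

set_option autoImplicit false

/-!
D8: the frequencies on the plane.
-/

namespace Pool.Agent.Work.MP_b0497c_an.Diff

open Set MeasureTheory RealInnerProductSpace Pool.Agent.Work.MP_b0497c_an
open Pool.Agent.Work.MP_b0497c_an.Dec (cube phase vec)
open Pool.Agent.Work.MP_b0497c_an.Disp (IsSolution IsSymbol IsDatum IsHat X rk rx kn en cp fr Res
  nsq conv Sn pres tor ez hat)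

namespace Plane

theorem norm_sq (k : Fin 3 → ℤ) : ‖vec k‖ ^ 2 = ((len k : ℤ) : ℝ) := by
  rw [Tri.FormAux.norm_vec_sq, Fin.sum_univ_three]
  unfold len
  push_cast
  ring

theorem norm_le (k : Fin 3 → ℤ) (n : ℕ) (h : len k ≤ 4 * 4 ^ n) : ‖vec k‖ ≤ 2 * 2 ^ n := by
  have h1 := norm_sq k
  have h2 : ((len k : ℤ) : ℝ) ≤ 4 * 4 ^ n := by exact_mod_cast h
  have h3 : (2 * 2 ^ n : ℝ) ^ 2 = 4 * 4 ^ n := by
    rw [mul_pow, ← pow_mul, mul_comm n 2, pow_mul]
    norm_num
  exact abs_le_of_sq_le_sq' (by rw [h1, h3]; exact h2) (by positivity) |>.2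

theorem two_le_four (n : ℕ) : (2 : ℤ) ^ n ≤ 4 ^ n := pow_le_pow_left₀ (by norm_num) (by norm_num) n

end Plane

open Plane in
theorem claimPlane : ClaimPlane := by
  refine ⟨256, by norm_num, ?_⟩
  intro n p q i x hn hpq hp2 hq hh hrel hx
  have hq2 : q 2 = 2 ^ n := by
    have h1 : p 2 + q 2 = kn n 2 := by
      rw [← hpq]
      rfl
    rw [hp2, zero_add, Disp.kn_two] at h1
    exact h1
  have hqh : hor q = 2 ^ n := by
    obtain ⟨m, h1, h2⟩ := hq
    rw [hq2, abs_of_pos (by positivity)] at h2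
    unfold hor
    rw [h1, h2]
  have hlenq : len q = 2 ^ n + 4 ^ n := by
    have h1 : len q = hor q + q 2 ^ 2 := by
      unfold len hor
      ring
    rw [h1, hqh, hq2, ← pow_mul, mul_comm n 2, pow_mul]
    norm_num
  have hlenp : len p = hor p := by
    unfold len hor
    rw [hp2]
    ring
  have hH1 : (2 : ℤ) ^ (n + 1) ≤ hor p := by
    rcases hh with h | h
    · rw [h]
    · rw [h]
      exact pow_le_pow_right₀ (by norm_num) (by omega)
  have hH2 : hor p ≤ 4 * 2 ^ n := by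
    rcases hh with h | h
    · rw [h, pow_succ]
      have : (0 : ℤ) < 2 ^ n := by positivity
      linarith
    · rw [h, pow_add]
      have : (0 : ℤ) < 2 ^ n := by positivity
      linarith
  have h24 := two_le_four n
  have hnp : ‖vec p‖ ≤ 2 * 2 ^ n := norm_le p n (by rw [hlenp]; linarith)
  have hnq : ‖vec q‖ ≤ 2 * 2 ^ n := norm_le q n (by
    rw [hlenq]
    have : (0 : ℤ) < 4 ^ n := by positivity
    linarith)
  have hsum : (‖vec p‖ + ‖vec q‖) ^ 4 ≤ 256 * 16 ^ n := by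
    have h1 : ‖vec p‖ + ‖vec q‖ ≤ 4 * 2 ^ n := by linarith
    have h2 : (4 * 2 ^ n : ℝ) ^ 4 = 256 * 16 ^ n := by
      rw [mul_pow, ← pow_mul, mul_comm n 4, pow_mul]
      norm_num
    rw [← h2]
    exact pow_le_pow_left₀ (by positivity) h1 4
  -- the frequency of q
  have hmu : |mu i q| ≤ 4 * 32 ^ n := by
    unfold mu
    split_ifs with hi
    · rw [abs_zero]
      positivity
    · have h1 : |q 0 ^ 2 - q 1 ^ 2 + 2 * (q 0 * q 1)| ≤ 2 * 2 ^ n := by
        rw [← hqh]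
        unfold hor
        rw [abs_le]
        constructor <;> nlinarith [sq_nonneg (q 0 + q 1), sq_nonneg (q 0 - q 1),
          sq_nonneg (q 0), sq_nonneg (q 1)]
      have h2 : len q * (O 0 q + 2 * O 1 q) * hor q =
          (2 ^ n + 4 ^ n) * 2 ^ n * 2 ^ n * (q 0 ^ 2 - q 1 ^ 2 + 2 * (q 0 * q 1)) := by
        rw [hlenq, hqh]
        have h3 : O 0 q = 2 ^ n * (q 0 ^ 2 - q 1 ^ 2) := by
          unfold O
          rw [if_pos rfl, hq2]
        have h4 : O 1 q = q 0 * q 1 * 2 ^ n := by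
          unfold O
          rw [if_neg (by decide), hq2]
        rw [h3, h4]
        ring
      have h3 : |len q * (O 0 q + 2 * O 1 q) * hor q| ≤ 4 * 32 ^ n := by
        rw [h2, abs_mul]
        have h4 : |((2 : ℤ) ^ n + 4 ^ n) * 2 ^ n * 2 ^ n| = (2 ^ n + 4 ^ n) * 2 ^ n * 2 ^ n :=
          abs_of_pos (by positivity)
        rw [h4]
        have h5 : ((2 : ℤ) ^ n + 4 ^ n) * 2 ^ n * 2 ^ n * |q 0 ^ 2 - q 1 ^ 2 + 2 * (q 0 * q 1)| ≤
            (4 ^ n + 4 ^ n) * 2 ^ n * 2 ^ n * (2 * 2 ^ n) := by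
          gcongr
        refine h5.trans (le_of_eq ?_)
        have h6 : (32 : ℤ) ^ n = 4 ^ n * 2 ^ n * 2 ^ n * 2 ^ n := by
          rw [← mul_pow, ← mul_pow, ← mul_pow]
          norm_num
        rw [h6]
        ring
      have h4 : qq q * (hor q : ℝ) = ((len q * (O 0 q + 2 * O 1 q) * hor q : ℤ) : ℝ) := by
        unfold qq
        push_cast
        ring
      rw [h4, ← Int.cast_abs]
      exact_mod_cast h3
  -- the frequency of p
  have hHr : (2 : ℝ) ^ (n + 1) ≤ (hor p : ℝ) := by exact_mod_cast hH1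
  have hH0 : (0 : ℝ) ≤ (hor p : ℝ) := le_trans (by positivity) hHr
  have hrr : |rr p| = (hor p : ℝ) ^ 4 := by
    unfold rr
    have h1 : |len p * P 0 p * (p 0 ^ 2 - p 1 ^ 2 + 2 * (p 0 * p 1))| = hor p ^ 4 := by
      have h2 : P 0 p = hor p ^ 2 := by
        unfold P
        rw [if_pos rfl, hp2]
        ring
      rw [abs_mul, hrel, hlenp, h2]
      have h3 : |hor p * hor p ^ 2| = hor p * hor p ^ 2 := abs_of_nonneg (by
        have : 0 ≤ hor p := le_trans (by positivity) hH1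
        positivity)
      rw [h3]
      ring
    rw [← Int.cast_abs, h1]
    push_cast
    ring
  have hxl : 64 * 32 ^ n ≤ |x| := by
    rw [hx, hrr]
    have h1 : (2 : ℝ) ≤ Real.sqrt (hor p) := by
      apply Real.le_sqrt_of_sq_le
      refine le_trans ?_ hHr
      have : (2 : ℝ) ^ 2 ≤ 2 ^ (n + 1) := pow_le_pow_right₀ (by norm_num) (by omega)
      exact this
    have h2 : ((2 : ℝ) ^ (n + 1)) ^ 5 ≤ (hor p : ℝ) ^ 5 := pow_le_pow_left₀ (by positivity) hHr 5
    have h3 : ((2 : ℝ) ^ (n + 1)) ^ 5 = 32 * 32 ^ n := by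
      rw [← pow_mul, mul_comm (n + 1) 5, pow_mul]
      norm_num
      ring
    calc 64 * 32 ^ n = (32 * 32 ^ n) * 2 := by ring
      _ ≤ (hor p : ℝ) ^ 5 * Real.sqrt (hor p) := by
        rw [← h3]
        gcongr
      _ = (hor p : ℝ) ^ 4 * (hor p * Real.sqrt (hor p)) := by ring
  have h16 : (16 : ℝ) ^ n ≤ 32 ^ n := pow_le_pow_left₀ (by norm_num) (by norm_num) n
  have h32 : (0 : ℝ) < 32 ^ n := by positivity
  have hfin : (16 : ℝ) ^ n ≤ |x + mu i q| := by
    have h1 : |x| ≤ |x + mu i q| + |mu i q| := by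
      have := abs_sub (x + mu i q) (mu i q)
      rw [add_sub_cancel_right] at this
      exact this
    linarith
  calc (‖vec p‖ + ‖vec q‖) ^ 4 ≤ 256 * 16 ^ n := hsum
    _ ≤ 256 * |x + mu i q| := by linarith

end Pool.Agent.Work.MP_b0497c_an.Diff
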