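import Pool.Agent.Work.MP_b0497c_an.Diff.Stmts2

/-!
D10: the symbol is a symmetric matrix of odd polynomials.
-/

set_option autoImplicit false

namespace Pool.Agent.Work.MP_b0497c_an.Diff

open Set MeasureTheory RealInnerProductSpace Pool.Agent.Work.MP_b0497c_an
open Pool.Agent.Work.MP_b0497c_an.Dec (cube phase vec)

namespace PolyAux

open MvPolynomial

/-- Degree at most `d` and parity `ε`. -/
def Par (ε : ℝ) (d : ℕ) (q : MvPolynomial (Fin 3) ℝ) : Prop :=
  q.totalDegree ≤ d ∧ ∀ x : Fin 3 → ℝ, eval (-x) q = ε * eval x q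

lemma Par.mono {ε : ℝ} {d d' : ℕ} {q : MvPolynomial (Fin 3) ℝ} (h : Par ε d q) (hd : d ≤ d') :
    Par ε d' q := ⟨h.1.trans hd, h.2⟩

lemma Par.mul {ε ε' : ℝ} {d d' : ℕ} {q q' : MvPolynomial (Fin 3) ℝ} (h : Par ε d q)
    (h' : Par ε' d' q') : Par (ε * ε') (d + d') (q * q') := by
  refine ⟨(totalDegree_mul _ _).trans (Nat.add_le_add h.1 h'.1), fun x => ?_⟩
  rw [map_mul, map_mul, h.2, h'.2]; ring

lemma Par.add {ε : ℝ} {d : ℕ} {q q' : MvPolynomial (Fin 3) ℝ} (h : Par ε d q)
    (h' : Par ε d q') : Par ε d (q + q') := by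
  refine ⟨(totalDegree_add _ _).trans (max_le h.1 h'.1), fun x => ?_⟩
  rw [map_add, map_add, h.2, h'.2]; ring

lemma Par.neg {ε : ℝ} {d : ℕ} {q : MvPolynomial (Fin 3) ℝ} (h : Par ε d q) : Par ε d (-q) := by
  refine ⟨by rw [totalDegree_neg]; exact h.1, fun x => ?_⟩
  rw [map_neg, map_neg, h.2]; ring

lemma Par.sub {ε : ℝ} {d : ℕ} {q q' : MvPolynomial (Fin 3) ℝ} (h : Par ε d q)
    (h' : Par ε d q') : Par ε d (q - q') := by
  rw [sub_eq_add_neg]; exact h.add h'.neg

lemma Par.pow {ε : ℝ} {d : ℕ} {q : MvPolynomial (Fin 3) ℝ} (h : Par ε d q) (n : ℕ) :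
    Par (ε ^ n) (n * d) (q ^ n) := by
  refine ⟨(totalDegree_pow _ _).trans (Nat.mul_le_mul_left _ h.1), fun x => ?_⟩
  rw [map_pow, map_pow, h.2]; ring

lemma Par.X (i : Fin 3) : Par (-1) 1 (X i : MvPolynomial (Fin 3) ℝ) := by
  refine ⟨(totalDegree_X _).le, fun x => ?_⟩
  rw [eval_X, eval_X]; simp

lemma Par.C (a : ℝ) : Par 1 0 (C a : MvPolynomial (Fin 3) ℝ) := by
  refine ⟨(totalDegree_C _).le, fun x => ?_⟩
  rw [eval_C, eval_C, one_mul]

lemma Par.zero (ε : ℝ) (d : ℕ) : Par ε d (0 : MvPolynomial (Fin 3) ℝ) := by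
  refine ⟨by simp, fun x => by simp⟩

lemma Par.sum {ε : ℝ} {d : ℕ} {ι : Type*} (s : Finset ι) (q : ι → MvPolynomial (Fin 3) ℝ)
    (h : ∀ i ∈ s, Par ε d (q i)) : Par ε d (∑ i ∈ s, q i) := by
  classical
  induction s using Finset.induction_on with
  | empty => simpa using Par.zero ε d
  | insert a s ha ih =>
    rw [Finset.sum_insert ha]
    exact (h a (Finset.mem_insert_self a s)).add
      (ih fun i hi => h i (Finset.mem_insert_of_mem hi))

/-- `x² + y²`. -/
noncomputable def HOR : MvPolynomial (Fin 3) ℝ := X 0 ^ 2 + X 1 ^ 2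

/-- `x² + y² + z²`. -/
noncomputable def LEN : MvPolynomial (Fin 3) ℝ := X 0 ^ 2 + X 1 ^ 2 + X 2 ^ 2

/-- The polynomials `P`. -/
noncomputable def PP (i : Fin 2) : MvPolynomial (Fin 3) ℝ :=
  if i = 0 then HOR ^ 2 - X 2 ^ 2 else X 0 * X 1 * (X 0 ^ 2 - X 1 ^ 2)

/-- The polynomials `O`. -/
noncomputable def OO (i : Fin 2) : MvPolynomial (Fin 3) ℝ :=
  if i = 0 then X 2 * (X 0 ^ 2 - X 1 ^ 2) else X 0 * X 1 * X 2

/-- The vector `tv`. -/
noncomputable def TT : Fin 3 → MvPolynomial (Fin 3) ℝ := ![-X 1, X 0, 0]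

/-- The vector `sv`. -/
noncomputable def SS : Fin 3 → MvPolynomial (Fin 3) ℝ := ![-(X 0 * X 2), -(X 1 * X 2), HOR]

/-- `scal`. -/
noncomputable def SC (θ : Fin 2 × Fin 2 × Fin 2 × Fin 2 → ℝ) : MvPolynomial (Fin 3) ℝ :=
  ∑ s : Fin 2 × Fin 2 × Fin 2 × Fin 2, C (θ s) *
    (LEN ^ (10 + (s.1 : ℕ)) * X 2 ^ (2 * (s.2.1 : ℕ)) * (PP s.2.2.1 * OO s.2.2.2))

/-- `qq`. -/
noncomputable def QQ : MvPolynomial (Fin 3) ℝ := LEN * (OO 0 + C 2 * OO 1)

/-- `rr`. -/
noncomputable def RR : MvPolynomial (Fin 3) ℝ :=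
  LEN * PP 0 * (X 0 ^ 2 - X 1 ^ 2 + C 2 * (X 0 * X 1))

lemma par_x2 (i : Fin 3) : Par 1 2 (X i ^ 2 : MvPolynomial (Fin 3) ℝ) := by
  have := (Par.X i).pow 2
  norm_num at this
  exact this

lemma par_HOR : Par 1 2 HOR := (par_x2 0).add (par_x2 1)

lemma par_LEN : Par 1 2 LEN := ((par_x2 0).add (par_x2 1)).add (par_x2 2)

lemma par_xx (i j : Fin 3) : Par 1 2 (X i * X j : MvPolynomial (Fin 3) ℝ) := by
  have := (Par.X i).mul (Par.X j)
  norm_num at this
  exact this

lemma par_PP (i : Fin 2) : Par 1 4 (PP i) := by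
  unfold PP
  split_ifs
  · have h1 := par_HOR.pow 2
    norm_num at h1
    exact h1.sub ((par_x2 2).mono (by norm_num))
  · have h1 := (par_xx 0 1).mul ((par_x2 0).sub (par_x2 1))
    norm_num at h1
    exact h1

lemma par_OO (i : Fin 2) : Par (-1) 3 (OO i) := by
  unfold OO
  split_ifs
  · have h1 := (Par.X 2).mul ((par_x2 0).sub (par_x2 1))
    norm_num at h1
    exact h1
  · have h1 := (par_xx 0 1).mul (Par.X 2)
    norm_num at h1
    exact h1

lemma par_TT (i : Fin 3) : Par (-1) 1 (TT i) := by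
  fin_cases i
  · exact (Par.X 1).neg
  · exact Par.X 0
  · exact Par.zero _ _

lemma par_SS (i : Fin 3) : Par 1 2 (SS i) := by
  fin_cases i
  · exact (par_xx 0 2).neg
  · exact (par_xx 1 2).neg
  · exact par_HOR

lemma par_SC (θ : Fin 2 × Fin 2 × Fin 2 × Fin 2 → ℝ) : Par (-1) 31 (SC θ) := by
  apply Par.sum
  rintro ⟨a, b, i, j⟩ _
  have h1 := (Par.C (θ (a, b, i, j))).mul (((par_LEN.pow (10 + (a : ℕ))).mul
    ((Par.X 2).pow (2 * (b : ℕ)))).mul ((par_PP i).mul (par_OO j)))
  have e : (1 : ℝ) * (1 ^ (10 + (a : ℕ)) * (-1) ^ (2 * (b : ℕ)) * (1 * -1)) = -1 := by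
    rw [one_pow, pow_mul]; norm_num
  rw [e] at h1
  apply h1.mono
  have ha := a.2
  have hb := b.2
  omega

lemma par_QQ : Par (-1) 5 QQ := by
  have h1 := (Par.C 2).mul (par_OO 1)
  norm_num at h1
  have h2 := par_LEN.mul ((par_OO 0).add h1)
  norm_num at h2
  exact h2

lemma par_RR : Par 1 8 RR := by
  have h1 := (Par.C 2).mul (par_xx 0 1)
  norm_num at h1
  have h2 := (par_LEN.mul (par_PP 0)).mul (((par_x2 0).sub (par_x2 1)).add h1)
  norm_num at h2
  exact h2

/-- The matrix. -/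
noncomputable def MQ (θ : Fin 2 × Fin 2 × Fin 2 × Fin 2 → ℝ) (i j : Fin 3) :
    MvPolynomial (Fin 3) ℝ :=
  (if i = j then SC θ else 0) + (QQ * (TT i * TT j) + RR * (TT i * SS j + SS i * TT j))

lemma par_MQ (θ : Fin 2 × Fin 2 × Fin 2 × Fin 2 → ℝ) (i j : Fin 3) : Par (-1) 31 (MQ θ i j) := by
  unfold MQ
  apply Par.add
  · split_ifs
    · exact par_SC θ
    · exact Par.zero _ _
  apply Par.add
  · have h := par_QQ.mul ((par_TT i).mul (par_TT j))
    norm_num at h
    exact h.mono (by norm_num)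
  · have h1 := (par_TT i).mul (par_SS j)
    have h2 := (par_SS i).mul (par_TT j)
    norm_num at h1 h2
    have h := par_RR.mul (h1.add h2)
    norm_num at h
    exact h.mono (by norm_num)

end PolyAux

open PolyAux MvPolynomial in
theorem claimPoly : ClaimPoly := by
  intro θ
  refine ⟨MQ θ, fun i j => ⟨?_, (par_MQ θ i j).1, fun x => ?_⟩, ?_⟩
  · unfold MQ
    by_cases h : i = j
    · subst h; rfl
    · rw [if_neg h, if_neg (Ne.symm h)]
      ring
  · rw [(par_MQ θ i j).2]; ring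
  · intro k c i
    have hT : ∀ j, eval (fun a => (k a : ℝ)) (TT j) = tv k j := by
      intro j
      fin_cases j <;> simp [TT, tv]
    have hS : ∀ j, eval (fun a => (k a : ℝ)) (SS j) = sv k j := by
      intro j
      fin_cases j <;> simp [SS, sv, HOR, hor]
    have hP : ∀ j, eval (fun a => (k a : ℝ)) (PP j) = (P j k : ℝ) := by
      intro j
      unfold PP P
      split_ifs <;> simp [HOR, hor]
    have hO : ∀ j, eval (fun a => (k a : ℝ)) (OO j) = (O j k : ℝ) := by
      intro j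
      unfold OO O
      split_ifs <;> simp
    have hL : eval (fun a => (k a : ℝ)) LEN = (len k : ℝ) := by
      simp [LEN, len]
    have hSC : eval (fun a => (k a : ℝ)) (SC θ) = scal θ k := by
      unfold SC scal mono
      rw [map_sum]
      refine Finset.sum_congr rfl fun s _ => ?_
      simp only [map_mul, map_pow, eval_C, eval_X, hL, hP, hO]
      push_cast
      ring
    have hQ : eval (fun a => (k a : ℝ)) QQ = qq k := by
      unfold QQ qq
      simp only [map_mul, map_add, eval_C, hL, hO]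
      push_cast
      ring
    have hR : eval (fun a => (k a : ℝ)) RR = rr k := by
      unfold RR rr
      simp only [map_mul, map_add, map_sub, map_pow, eval_C, eval_X, hL, hP]
      push_cast
      ring
    have hM : ∀ j, eval (fun a => (k a : ℝ)) (MQ θ i j) = (if i = j then scal θ k else 0) +
        (qq k * (tv k i * tv k j) + rr k * (tv k i * sv k j + sv k i * tv k j)) := by
      intro j
      unfold MQ
      rw [map_add, map_add, map_mul, map_mul, map_mul, map_add, map_mul, map_mul, hT, hT, hS, hS,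
        hQ, hR]
      congr 1
      split_ifs
      · exact hSC
      · simp
    have hin1 : ⟪tv k, c⟫ = ∑ j, tv k j * c j := by
      rw [PiLp.inner_apply]
      refine Finset.sum_congr rfl fun j _ => ?_
      simp [mul_comm]
    have hin2 : ⟪sv k, c⟫ = ∑ j, sv k j * c j := by
      rw [PiLp.inner_apply]
      refine Finset.sum_congr rfl fun j _ => ?_
      simp [mul_comm]
    simp only [hM]
    unfold dsym
    simp only [PiLp.add_apply, PiLp.smul_apply, smul_eq_mul, hin1, hin2]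
    have e1 : ∑ j, ((if i = j then scal θ k else 0) +
        (qq k * (tv k i * tv k j) + rr k * (tv k i * sv k j + sv k i * tv k j))) * c j =
        scal θ k * c i + (qq k * tv k i * ∑ j, tv k j * c j) +
          (rr k * (tv k i * ∑ j, sv k j * c j + sv k i * ∑ j, tv k j * c j)) := by
      have e2 : scal θ k * c i = ∑ j, (if i = j then scal θ k else 0) * c j := by
        rw [Finset.sum_eq_single i]
        · rw [if_pos rfl]
        · intro j _ hj
          rw [if_neg (Ne.symm hj), zero_mul]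
        · intro h; exact absurd (Finset.mem_univ i) h
      rw [e2]
      simp only [Finset.mul_sum, mul_add, Finset.sum_add_distrib, add_mul]
      simp only [← Finset.sum_add_distrib]
      refine Finset.sum_congr rfl fun j _ => ?_
      ring
    rw [e1]
    ring

end Pool.Agent.Work.MP_b0497c_an.Diff
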