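import Mathlib
import Pool.Agent.Work.MP_b0497c_an.Disp.Eig
import Pool.Agent.Work.MP_b0497c_an.Diff.Stmts

set_option autoImplicit false

/-!
D2: eigenframes of the symbol of the differential operator.
-/

namespace Pool.Agent.Work.MP_b0497c_an.Diff

open Set MeasureTheory RealInnerProductSpace Pool.Agent.Work.MP_b0497c_an
open Pool.Agent.Work.MP_b0497c_an.Dec (cube phase vec)
open Pool.Agent.Work.MP_b0497c_an.Disp

namespace PreFrameP

/-- Eigenvectors of the matrix `(a b; b 0)`. -/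
theorem eigAbs (a b : ℝ) : ∃ c s m : Fin 2 → ℝ, (∀ j, c j ^ 2 + s j ^ 2 = 1) ∧
    c 0 * c 1 + s 0 * s 1 = 0 ∧ (∀ j, a * c j + b * s j = m j * c j) ∧ (∀ j, b * c j = m j * s j) ∧
    (b = 0 → c 0 = 0 ∧ s 0 = 1 ∧ m 0 = 0 ∧ c 1 = 1 ∧ s 1 = 0 ∧ m 1 = a) ∧
    (a = 0 → ∀ j, |m j| = |b|) := by
  by_cases hb : b = 0
  · refine ⟨![0, 1], ![1, 0], ![0, a], ?_, ?_, ?_, ?_, ?_, ?_⟩
    · intro j; fin_cases j <;> simp
    · simp
    · intro j; fin_cases j <;> simp [hb]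
    · intro j; fin_cases j <;> simp [hb]
    · intro _; simp
    · intro ha j; fin_cases j <;> simp [hb, ha]
  · have hex : ∃ μ r : Fin 2 → ℝ, (∀ j, μ j ^ 2 = a * μ j + b ^ 2) ∧ (∀ j, r j ≠ 0) ∧
        (∀ j, r j ^ 2 = μ j ^ 2 + b ^ 2) ∧ μ 0 * μ 1 + b * b = 0 ∧
        (a = 0 → ∀ j, |μ j| = |b|) := by
      have hD : 0 ≤ a ^ 2 + 4 * b ^ 2 := by positivity
      have hDsq : Real.sqrt (a ^ 2 + 4 * b ^ 2) ^ 2 = a ^ 2 + 4 * b ^ 2 := Real.sq_sqrt hD
      have hDa : a = 0 → Real.sqrt (a ^ 2 + 4 * b ^ 2) = 2 * |b| := by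
        intro ha
        have : a ^ 2 + 4 * b ^ 2 = (2 * |b|) ^ 2 := by rw [mul_pow, sq_abs, ha]; ring
        rw [this, Real.sqrt_sq (by positivity)]
      generalize Real.sqrt (a ^ 2 + 4 * b ^ 2) = D at hDsq hDa
      have hpos : ∀ x : ℝ, 0 < x ^ 2 + b ^ 2 := fun x => by positivity
      refine ⟨![(a + D) / 2, (a - D) / 2], fun j => Real.sqrt ((![(a + D) / 2, (a - D) / 2] :
        Fin 2 → ℝ) j ^ 2 + b ^ 2), ?_, fun j => (Real.sqrt_pos.2 (hpos _)).ne',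
        fun j => Real.sq_sqrt (hpos _).le, ?_, ?_⟩
      · intro j
        fin_cases j
        · simp only [Fin.zero_eta, Matrix.cons_val_zero]
          linear_combination (1 / 4) * hDsq
        · change ((a - D) / 2) ^ 2 = a * ((a - D) / 2) + b ^ 2
          linear_combination (1 / 4) * hDsq
      · simp only [Matrix.cons_val_zero, Matrix.cons_val_one]
        linear_combination (-1 / 4) * hDsq
      · intro ha j
        rw [hDa ha, ha]
        fin_cases j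
        · simp only [Fin.zero_eta, Matrix.cons_val_zero]
          rw [zero_add, mul_div_cancel_left₀ _ (by norm_num : (2 : ℝ) ≠ 0), abs_abs]
        · change |(0 - 2 * |b|) / 2| = |b|
          rw [zero_sub, neg_div, abs_neg, mul_div_cancel_left₀ _ (by norm_num : (2 : ℝ) ≠ 0),
            abs_abs]
    obtain ⟨μ, r, hμ, hr, hr2, hprod, ha0⟩ := hex
    refine ⟨fun j => μ j / r j, fun j => b / r j, μ, ?_, ?_, ?_, ?_, ?_, ?_⟩
    · intro j
      have h1 := hr2 j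
      have h2 := hr j
      rw [div_pow, div_pow, ← add_div, ← h1, div_self (pow_ne_zero 2 h2)]
    · have h0 := hr 0
      have h1 := hr 1
      change μ 0 / r 0 * (μ 1 / r 1) + b / r 0 * (b / r 1) = 0
      rw [div_mul_div_comm, div_mul_div_comm, ← add_div, hprod, zero_div]
    · intro j
      have h1 := hμ j
      change a * (μ j / r j) + b * (b / r j) = μ j * (μ j / r j)
      rw [mul_div_assoc', mul_div_assoc', mul_div_assoc', ← add_div]
      congr 1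
      linear_combination -h1
    · intro j
      change b * (μ j / r j) = μ j * (b / r j)
      ring
    · intro h; exact absurd h hb
    · exact ha0

variable (k : Fin 3 → ℤ)

theorem hor_cast : ((hor k : ℤ) : ℝ) = (k 0 : ℝ) ^ 2 + (k 1 : ℝ) ^ 2 := by
  simp [hor]

theorem tv_eq (hk : ¬ (k 0 = 0 ∧ k 1 = 0)) :
    tv k = Real.sqrt ((k 0 : ℝ) ^ 2 + (k 1 : ℝ) ^ 2) • tor k := by
  have hp := Eig_pos k hk
  have h2 : Real.sqrt ((k 0 : ℝ) ^ 2 + (k 1 : ℝ) ^ 2) ≠ 0 := (Real.sqrt_pos.2 hp).ne'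
  rw [tor, smul_smul, mul_inv_cancel₀ h2, one_smul, tv]

theorem basis : ∃ (S : E3) (σ : ℝ), (¬ (k 0 = 0 ∧ k 1 = 0) → ⟪S, S⟫ = 1) ∧
    ⟪tor k, S⟫ = 0 ∧ ⟪vec k, S⟫ = 0 ∧ (¬ (k 0 = 0 ∧ k 1 = 0) → sv k = σ • S) ∧
    (k 2 ≠ 0 → S = pol k) ∧ (k 2 = 0 → σ = hor k) := by
  by_cases h2 : k 2 = 0
  · refine ⟨ez, hor k, fun _ => Eig_ez_ez, Eig_tor_ez k, Eig_vec_ez k h2, fun _ => ?_,
      fun h => absurd h2 h, fun _ => rfl⟩
    ext i
    fin_cases i <;> simp [sv, ez, h2]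
  · have h2' : (k 2 : ℝ) ≠ 0 := by exact_mod_cast h2
    refine ⟨pol k, -(k 2 : ℝ) * Real.sqrt ((k 0 : ℝ) ^ 2 + (k 1 : ℝ) ^ 2 +
      (((k 0 : ℝ) ^ 2 + (k 1 : ℝ) ^ 2) / k 2) ^ 2), fun hk => Eig_pol_pol k hk, Eig_tor_pol k,
      Eig_vec_pol k h2, fun hk => ?_, fun _ => rfl, fun h => absurd h h2⟩
    have hp := Eig_pos k hk
    have hp2 : 0 < (k 0 : ℝ) ^ 2 + (k 1 : ℝ) ^ 2 + (((k 0 : ℝ) ^ 2 + (k 1 : ℝ) ^ 2) / k 2) ^ 2 := by
      positivity
    have h3 := (Real.sqrt_pos.2 hp2).ne'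
    rw [pol, smul_smul]
    have h4 : -(k 2 : ℝ) * Real.sqrt ((k 0 : ℝ) ^ 2 + (k 1 : ℝ) ^ 2 +
      (((k 0 : ℝ) ^ 2 + (k 1 : ℝ) ^ 2) / k 2) ^ 2) * (Real.sqrt ((k 0 : ℝ) ^ 2 + (k 1 : ℝ) ^ 2 +
      (((k 0 : ℝ) ^ 2 + (k 1 : ℝ) ^ 2) / k 2) ^ 2))⁻¹ = -(k 2 : ℝ) := by
      rw [mul_assoc, mul_inv_cancel₀ h3, mul_one]
    rw [h4]
    ext i
    fin_cases i
    · simp [sv]; ring
    · simp [sv]; ring
    · simp [sv, hor_cast]
      field_simp

theorem point : ∃ (F : Fin 2 → E3) (m : Fin 2 → ℝ), ¬ (k 0 = 0 ∧ k 1 = 0) →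
    (∀ j, ‖F j‖ = 1) ∧ (∀ j, ⟪vec k, F j⟫ = 0) ∧ ⟪F 0, F 1⟫ = 0 ∧
    (∀ θ j, dsym θ k (F j) = (scal θ k + m j) • F j) ∧
    (k 2 ≠ 0 → P 0 k = 0 → ∀ j, F j = fr j k ∧ m j = mu j k) ∧
    (k 2 = 0 → ∀ j, |m j| = |rr k| * (hor k * Real.sqrt (hor k))) := by
  obtain ⟨S, σ, hSS, hTS, hvS, hsv, hSpol, hσ⟩ := basis k
  set τ := Real.sqrt ((k 0 : ℝ) ^ 2 + (k 1 : ℝ) ^ 2) with hτ
  obtain ⟨c, s, m, h1, h2, h3, h4, h5, h6⟩ := eigAbs (qq k * τ ^ 2) (rr k * τ * σ)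
  refine ⟨fun j => c j • tor k + s j • S, m, fun hk => ?_⟩
  have hTT := Eig_tor_tor k hk
  have hSS := hSS hk
  have hsv := hsv hk
  have htv := tv_eq k hk
  rw [← hτ] at htv
  have hST : ⟪S, tor k⟫ = 0 := by rw [real_inner_comm]; exact hTS
  have hin : ∀ j i, ⟪c j • tor k + s j • S, c i • tor k + s i • S⟫ = c j * c i + s j * s i := by
    intro j i
    rw [inner_add_left, inner_add_right, inner_add_right]
    simp only [real_inner_smul_left, real_inner_smul_right, hTT, hTS, hST, hSS]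
    ring
  have hp := Eig_pos k hk
  have hτ2 : τ ^ 2 = hor k := by rw [hor_cast]; exact Real.sq_sqrt hp.le
  refine ⟨?_, ?_, ?_, ?_, ?_, ?_⟩
  · intro j
    apply Eig_norm
    rw [hin]
    have := h1 j
    linarith [sq (c j), sq (s j)]
  · intro j
    rw [inner_add_right, real_inner_smul_right, real_inner_smul_right, Eig_vec_tor, hvS]
    ring
  · rw [hin]; exact h2
  · intro θ j
    have ht : ⟪tv k, c j • tor k + s j • S⟫ = τ * c j := by
      rw [htv, inner_add_right]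
      simp only [real_inner_smul_left, real_inner_smul_right, hTT, hTS]
      ring
    have hs : ⟪sv k, c j • tor k + s j • S⟫ = σ * s j := by
      rw [hsv, inner_add_right]
      simp only [real_inner_smul_left, real_inner_smul_right, hST, hSS]
      ring
    rw [dsym, ht, hs, htv, hsv]
    have e1 : qq k * (τ * c j) * τ + rr k * (σ * s j) * τ = m j * c j := by
      rw [← h3 j]; ring
    have e2 : rr k * (τ * c j) * σ = m j * s j := by
      rw [← h4 j]; ring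
    have e3 : (qq k * (τ * c j)) • τ • tor k + rr k • ((τ * c j) • σ • S + (σ * s j) • τ • tor k)
        = (qq k * (τ * c j) * τ + rr k * (σ * s j) * τ) • tor k + (rr k * (τ * c j) * σ) • S := by
      module
    rw [e3, e1, e2]
    module
  · intro hz hP j
    have hrr : rr k = 0 := by simp [rr, hP]
    have hb : rr k * τ * σ = 0 := by rw [hrr]; ring
    obtain ⟨g1, g2, g3, g4, g5, g6⟩ := h5 hb
    fin_cases j
    · refine ⟨?_, ?_⟩
      · simp only [Fin.zero_eta, g1, g2, zero_smul, one_smul, zero_add, fr, hz, if_false, if_true]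
        exact hSpol hz
      · simp [mu, g3]
    · refine ⟨?_, ?_⟩
      · simp [g4, g5, fr, hz]
      · simp only [Fin.mk_one, g6, mu, one_ne_zero, if_false]
        rw [hτ2]
  · intro hz j
    have hqq : qq k = 0 := by simp [qq, O, hz]
    have := h6 (by rw [hqq]; ring) j
    rw [this, hσ hz, abs_mul, abs_mul]
    have hh : (0 : ℝ) ≤ hor k := by rw [hor_cast]; exact hp.le
    rw [abs_of_nonneg hh, abs_of_nonneg (Real.sqrt_nonneg _), ← hor_cast]
    ring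

end PreFrameP

theorem claimPreFrame : ClaimPreFrame := by
  choose F m h using PreFrameP.point
  refine ⟨fun j k => F k j, fun j k => m k j, ?_, ?_, ?_, ?_, ?_, ?_⟩
  · intro k hk; exact (h k hk).1
  · intro k hk; exact (h k hk).2.1
  · intro k hk; exact (h k hk).2.2.1
  · intro θ k hk; exact (h k hk).2.2.2.1 θ
  · intro k hk h2 hP; exact (h k hk).2.2.2.2.1 h2 hP
  · intro k hk h2; exact (h k hk).2.2.2.2.2 h2

end Pool.Agent.Work.MP_b0497c_an.Diff
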