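import Mathlib
import Pool.Agent.Work.MP_b0497c_an.Diff.Stmts

set_option autoImplicit false

/-!
Euler equations with a dispersive differential operator: the symbol is a polynomial matrix.
-/

namespace Pool.Agent.Work.MP_b0497c_an.Diff

open Set MeasureTheory RealInnerProductSpace Pool.Agent.Work.MP_b0497c_an
open Pool.Agent.Work.MP_b0497c_an.Dec (cube phase vec)

/-- D10. The symbol is a symmetric matrix of odd polynomials of degree at most 31. -/
def ClaimPoly : Prop := ∀ θ : Fin 2 × Fin 2 × Fin 2 × Fin 2 → ℝ,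
  ∃ Q : Fin 3 → Fin 3 → MvPolynomial (Fin 3) ℝ,
    (∀ i j, Q i j = Q j i ∧ (Q i j).totalDegree ≤ 31 ∧
      ∀ x, MvPolynomial.eval (-x) (Q i j) = -MvPolynomial.eval x (Q i j)) ∧
    ∀ (k : Fin 3 → ℤ) (c : EuclideanSpace ℝ (Fin 3)) (i : Fin 3),
      dsym θ k c i = ∑ j, MvPolynomial.eval (fun a => (k a : ℝ)) (Q i j) * c j

end Pool.Agent.Work.MP_b0497c_an.Diff
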