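import Pool.Agent.Work.MP_b0497c_an.Diff.Stmts
import Pool.Agent.Work.MP_b0497c_an.Disp.Sum
import Pool.Agent.Work.MP_b0497c_an.Disp.Kn

set_option autoImplicit false

/-!
D4: the sum over the nonresonant terms.
-/

namespace Pool.Agent.Work.MP_b0497c_an.Diff

open Set MeasureTheory RealInnerProductSpace Pool.Agent.Work.MP_b0497c_an
open Pool.Agent.Work.MP_b0497c_an.Dec (cube phase vec)
open Pool.Agent.Work.MP_b0497c_an.Disp

theorem claimSum : ClaimSum := by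
  have hg : Summable fun p : Fin 3 → ℤ => (‖vec p‖ ^ 4)⁻¹ + (if p = 0 then (1 : ℝ) else 0) :=
    sum_lattice.add (hasSum_ite_eq 0 (1 : ℝ)).summable
  have hg0 : ∀ p : Fin 3 → ℤ, 0 ≤ (‖vec p‖ ^ 4)⁻¹ + (if p = 0 then (1 : ℝ) else 0) := by
    intro p
    split_ifs <;> positivity
  have hf : Summable fun _ : Fin 2 × Fin 2 => (1 : ℝ) := (hasSum_fintype _).summable
  have hgf : Summable fun s : (Fin 3 → ℤ) × Fin 2 × Fin 2 =>
      ((‖vec s.1‖ ^ 4)⁻¹ + (if s.1 = 0 then (1 : ℝ) else 0)) * 1 :=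
    hg.mul_of_nonneg hf hg0 (fun _ => zero_le_one)
  have hn : Summable fun n : ℕ => ((1 / 4 : ℝ)) ^ n :=
    summable_geometric_of_lt_one (by norm_num) (by norm_num)
  have hall : Summable fun s : ℕ × (Fin 3 → ℤ) × Fin 2 × Fin 2 => ((1 / 4 : ℝ)) ^ s.1 *
      (((‖vec s.2.1‖ ^ 4)⁻¹ + (if s.2.1 = 0 then (1 : ℝ) else 0)) * 1) :=
    hn.mul_of_nonneg hgf (fun n => by positivity) (fun s => mul_nonneg (hg0 s.1) zero_le_one)
  refine Summable.of_nonneg_of_le (fun s => by positivity) ?_ hall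
  rintro ⟨n, p, j, i⟩
  simp only [mul_one]
  have hk : ‖vec (kn n)‖ ^ 2 = 2 ^ n + 4 ^ n := (claimKn.2.2.1 n).2.2.1
  have htri := sum_tri (kn n) p
  have hR1 : (4 : ℝ) ^ n ≤ (‖vec p‖ + ‖vec (kn n - p)‖) ^ 2 := by
    have h1 := pow_le_pow_left₀ (norm_nonneg _) htri 2
    have h2 : (0 : ℝ) < 2 ^ n := by positivity
    linarith
  have hR4 : 1 ≤ (‖vec p‖ + ‖vec (kn n - p)‖) ^ 2 :=
    (one_le_pow₀ (by norm_num)).trans hR1
  have hRp : ‖vec p‖ ≤ ‖vec p‖ + ‖vec (kn n - p)‖ := le_add_of_nonneg_right (norm_nonneg _)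
  set R := ‖vec p‖ + ‖vec (kn n - p)‖ with hR
  have hR0 : 0 ≤ R := by positivity
  have hsplit : (R ^ 6)⁻¹ = (R ^ 2)⁻¹ * (R ^ 4)⁻¹ := by
    rw [← mul_inv]
    ring_nf
  rw [hsplit]
  have h4n : (0 : ℝ) < 4 ^ n := by positivity
  have e1 : (R ^ 2)⁻¹ ≤ (1 / 4 : ℝ) ^ n := by
    rw [one_div, inv_pow]
    exact inv_anti₀ h4n hR1
  refine mul_le_mul e1 ?_ (by positivity) (by positivity)
  by_cases hp : p = 0
  · rw [if_pos hp]
    have h5 : (R ^ 4)⁻¹ ≤ 1 := by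
      apply inv_le_one_of_one_le₀
      nlinarith
    have h6 : 0 ≤ (‖vec p‖ ^ 4)⁻¹ := by positivity
    linarith
  · rw [if_neg hp, add_zero]
    have h1 := sum_one_le hp
    exact inv_anti₀ (by positivity) (pow_le_pow_left₀ (norm_nonneg _) hRp 4)

end Pool.Agent.Work.MP_b0497c_an.Diff
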