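import Mathlib
import Pool.Agent.Work.MP_b0497c_an.Disp.Symbol
import Pool.Agent.Work.MP_b0497c_an.Diff.Stmts

set_option autoImplicit false

/-!
D1: the symbol of the differential operator is a symbol.
-/

namespace Pool.Agent.Work.MP_b0497c_an.Diff

open Set MeasureTheory RealInnerProductSpace Pool.Agent.Work.MP_b0497c_an
open Pool.Agent.Work.MP_b0497c_an.Dec (cube phase vec)
open Pool.Agent.Work.MP_b0497c_an.Disp (IsSymbol rk rx)
open Pool.Agent.Work.MP_b0497c_an.Disp.Symbol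

namespace Symbol

/-! ### Polynomial growth -/

/-- polynomial growth -/
def PG (f : (Fin 3 → ℤ) → ℝ) : Prop := ∃ C s : ℕ, ∀ k, |f k| ≤ C * (1 + ‖vec k‖) ^ s

theorem one_le (k : Fin 3 → ℤ) : 1 ≤ 1 + ‖vec k‖ := le_add_of_nonneg_right (norm_nonneg _)

theorem PG.mono {f g : (Fin 3 → ℤ) → ℝ} (hf : PG f) (h : ∀ k, |g k| ≤ |f k|) : PG g := by
  obtain ⟨C, s, hC⟩ := hf
  exact ⟨C, s, fun k => (h k).trans (hC k)⟩

theorem PG.const (r : ℝ) : PG (fun _ => r) :=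
  ⟨⌈|r|⌉₊, 0, fun k => by simpa using Nat.le_ceil |r|⟩

theorem PG.add {f g : (Fin 3 → ℤ) → ℝ} (hf : PG f) (hg : PG g) : PG (fun k => f k + g k) := by
  obtain ⟨C, s, hC⟩ := hf
  obtain ⟨D, t, hD⟩ := hg
  refine ⟨C + D, s + t, fun k => ?_⟩
  have h1 : (1 + ‖vec k‖) ^ s ≤ (1 + ‖vec k‖) ^ (s + t) :=
    pow_le_pow_right₀ (one_le k) (Nat.le_add_right _ _)
  have h2 : (1 + ‖vec k‖) ^ t ≤ (1 + ‖vec k‖) ^ (s + t) :=
    pow_le_pow_right₀ (one_le k) (Nat.le_add_left _ _)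
  calc |f k + g k| ≤ |f k| + |g k| := abs_add_le _ _
    _ ≤ C * (1 + ‖vec k‖) ^ s + D * (1 + ‖vec k‖) ^ t := add_le_add (hC k) (hD k)
    _ ≤ C * (1 + ‖vec k‖) ^ (s + t) + D * (1 + ‖vec k‖) ^ (s + t) := by
        gcongr
    _ = ((C + D : ℕ) : ℝ) * (1 + ‖vec k‖) ^ (s + t) := by
        push_cast
        ring

theorem PG.mul {f g : (Fin 3 → ℤ) → ℝ} (hf : PG f) (hg : PG g) : PG (fun k => f k * g k) := by
  obtain ⟨C, s, hC⟩ := hf
  obtain ⟨D, t, hD⟩ := hg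
  refine ⟨C * D, s + t, fun k => ?_⟩
  rw [abs_mul, pow_add]
  calc |f k| * |g k| ≤ (C * (1 + ‖vec k‖) ^ s) * (D * (1 + ‖vec k‖) ^ t) :=
        mul_le_mul (hC k) (hD k) (abs_nonneg _) (by positivity)
    _ = _ := by
        push_cast
        ring

theorem PG.neg {f : (Fin 3 → ℤ) → ℝ} (hf : PG f) : PG (fun k => -f k) :=
  hf.mono (fun k => by rw [abs_neg])

theorem PG.sub {f g : (Fin 3 → ℤ) → ℝ} (hf : PG f) (hg : PG g) : PG (fun k => f k - g k) := by
  simpa [sub_eq_add_neg] using hf.add hg.neg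

theorem PG.abs {f : (Fin 3 → ℤ) → ℝ} (hf : PG f) : PG (fun k => |f k|) :=
  hf.mono (fun k => by rw [abs_abs])

theorem PG.pow {f : (Fin 3 → ℤ) → ℝ} (hf : PG f) (n : ℕ) : PG (fun k => f k ^ n) := by
  induction n with
  | zero => simpa using PG.const 1
  | succ n ih => simpa [pow_succ] using ih.mul hf

theorem PG.sum {ι : Type} (s : Finset ι) {f : ι → (Fin 3 → ℤ) → ℝ} (hf : ∀ i, PG (f i)) :
    PG (fun k => ∑ i ∈ s, f i k) := by
  classical
  induction s using Finset.induction_on with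
  | empty => simpa using PG.const 0
  | insert a s ha ih =>
    simp only [Finset.sum_insert ha]
    exact (hf a).add ih

theorem normsq3 (a : E3) : ‖a‖ ^ 2 = a 0 ^ 2 + a 1 ^ 2 + a 2 ^ 2 := by
  rw [← real_inner_self_eq_norm_sq, inner3]
  ring

theorem norm_le3 (a : E3) : ‖a‖ ≤ |a 0| + |a 1| + |a 2| := by
  have h := normsq3 a
  have h0 := abs_nonneg (a 0)
  have h1 := abs_nonneg (a 1)
  have h2 := abs_nonneg (a 2)
  have e0 := sq_abs (a 0)
  have e1 := sq_abs (a 1)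
  have e2 := sq_abs (a 2)
  apply le_of_sq_le_sq _ (by positivity)
  rw [h]
  nlinarith [mul_nonneg h0 h1, mul_nonneg h0 h2, mul_nonneg h1 h2]

theorem coord_le (a : E3) (i : Fin 3) : |a i| ≤ ‖a‖ := by
  have := EuclideanSpace.norm_eq a
  simpa using PiLp.norm_apply_le a i

theorem PG.coord (i : Fin 3) : PG (fun k => (k i : ℝ)) := by
  refine ⟨1, 1, fun k => ?_⟩
  have h : |(k i : ℝ)| ≤ ‖vec k‖ := by
    have := coord_le (vec k) i
    fin_cases i <;> exact this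
  simp only [Nat.cast_one, one_mul, pow_one]
  linarith

theorem PG.norm3 {f : (Fin 3 → ℤ) → E3} (h : ∀ i, PG (fun k => f k i)) : PG (fun k => ‖f k‖) := by
  refine (((h 0).abs.add (h 1).abs).add (h 2).abs).mono (fun k => ?_)
  rw [abs_of_nonneg (norm_nonneg _)]
  exact (norm_le3 _).trans (le_abs_self _)

theorem PG.hor : PG (fun k => (hor k : ℝ)) := by
  simp only [Diff.hor]
  push_cast
  exact ((PG.coord 0).pow 2).add ((PG.coord 1).pow 2)

theorem PG.len : PG (fun k => (len k : ℝ)) := by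
  simp only [Diff.len]
  push_cast
  exact (((PG.coord 0).pow 2).add ((PG.coord 1).pow 2)).add ((PG.coord 2).pow 2)

theorem PG.P (i : Fin 2) : PG (fun k => (P i k : ℝ)) := by
  unfold Diff.P
  split_ifs
  · push_cast
    exact (PG.hor.pow 2).sub ((PG.coord 2).pow 2)
  · push_cast
    exact ((PG.coord 0).mul (PG.coord 1)).mul (((PG.coord 0).pow 2).sub ((PG.coord 1).pow 2))

theorem PG.O (i : Fin 2) : PG (fun k => (O i k : ℝ)) := by
  unfold Diff.O
  split_ifs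
  · push_cast
    exact (PG.coord 2).mul (((PG.coord 0).pow 2).sub ((PG.coord 1).pow 2))
  · push_cast
    exact ((PG.coord 0).mul (PG.coord 1)).mul (PG.coord 2)

theorem PG.scal (θ : Fin 2 × Fin 2 × Fin 2 × Fin 2 → ℝ) : PG (scal θ) := by
  unfold Diff.scal
  apply PG.sum
  intro s
  apply (PG.const _).mul
  unfold Diff.mono
  push_cast
  exact ((PG.len.pow _).mul ((PG.coord 2).pow _)).mul ((PG.P _).mul (PG.O _))

theorem PG.qq : PG qq := by
  unfold Diff.qq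
  push_cast
  exact PG.len.mul ((PG.O 0).add ((PG.const 2).mul (PG.O 1)))

theorem PG.rr : PG rr := by
  unfold Diff.rr
  push_cast
  exact (PG.len.mul (PG.P 0)).mul ((((PG.coord 0).pow 2).sub ((PG.coord 1).pow 2)).add
    ((PG.const 2).mul ((PG.coord 0).mul (PG.coord 1))))

theorem tv0 (k : Fin 3 → ℤ) : tv k 0 = -(k 1 : ℝ) := rfl
theorem tv1 (k : Fin 3 → ℤ) : tv k 1 = (k 0 : ℝ) := rfl
theorem tv2 (k : Fin 3 → ℤ) : tv k 2 = 0 := rfl
theorem sv0 (k : Fin 3 → ℤ) : sv k 0 = -((k 0 : ℝ) * k 2) := rfl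
theorem sv1 (k : Fin 3 → ℤ) : sv k 1 = -((k 1 : ℝ) * k 2) := rfl
theorem sv2 (k : Fin 3 → ℤ) : sv k 2 = (hor k : ℝ) := rfl

theorem PG.tv : PG (fun k => ‖tv k‖) := by
  apply PG.norm3
  intro i
  fin_cases i
  · exact (PG.coord 1).neg
  · exact PG.coord 0
  · exact PG.const 0

theorem PG.sv : PG (fun k => ‖sv k‖) := by
  apply PG.norm3
  intro i
  fin_cases i
  · exact ((PG.coord 0).mul (PG.coord 2)).neg
  · exact ((PG.coord 1).mul (PG.coord 2)).neg
  · exact PG.hor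

/-! ### Orthogonality -/

theorem vec_tv (k : Fin 3 → ℤ) : ⟪vec k, tv k⟫ = 0 := by
  rw [inner3, tv0, tv1, tv2, vec0, vec1]
  ring

theorem vec_sv (k : Fin 3 → ℤ) : ⟪vec k, sv k⟫ = 0 := by
  rw [inner3, sv0, sv1, sv2, vec0, vec1, vec2]
  unfold hor
  push_cast
  ring

/-! ### Parity -/

theorem hor_neg (k : Fin 3 → ℤ) : hor (-k) = hor k := by
  simp [hor]

theorem len_neg (k : Fin 3 → ℤ) : len (-k) = len k := by
  simp [len]

theorem P_neg (i : Fin 2) (k : Fin 3 → ℤ) : P i (-k) = P i k := by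
  unfold P
  simp [hor_neg]

theorem O_neg (i : Fin 2) (k : Fin 3 → ℤ) : O i (-k) = -O i k := by
  unfold O
  split_ifs
  · simp only [Pi.neg_apply]
    ring
  · simp only [Pi.neg_apply]
    ring

theorem mono_neg (s : Fin 2 × Fin 2 × Fin 2 × Fin 2) (k : Fin 3 → ℤ) :
    mono s (-k) = -mono s k := by
  unfold mono
  rw [len_neg, P_neg, O_neg, Pi.neg_apply, Even.neg_pow (even_two_mul _)]
  ring

theorem scal_neg (θ : Fin 2 × Fin 2 × Fin 2 × Fin 2 → ℝ) (k : Fin 3 → ℤ) :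
    scal θ (-k) = -scal θ k := by
  unfold scal
  rw [← Finset.sum_neg_distrib]
  refine Finset.sum_congr rfl (fun s _ => ?_)
  rw [mono_neg]
  push_cast
  ring

theorem qq_neg (k : Fin 3 → ℤ) : qq (-k) = -qq k := by
  unfold qq
  rw [len_neg, O_neg, O_neg]
  push_cast
  ring

theorem rr_neg (k : Fin 3 → ℤ) : rr (-k) = rr k := by
  unfold rr
  rw [len_neg, P_neg]
  simp only [Pi.neg_apply]
  push_cast
  ring

theorem tv_neg (k : Fin 3 → ℤ) : tv (-k) = -tv k := by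
  apply ext3
  · rw [PiLp.neg_apply, tv0, tv0]
    simp
  · rw [PiLp.neg_apply, tv1, tv1]
    simp
  · rw [PiLp.neg_apply, tv2, tv2, neg_zero]

theorem sv_neg (k : Fin 3 → ℤ) : sv (-k) = sv k := by
  apply ext3
  · rw [sv0, sv0]
    simp
  · rw [sv1, sv1]
    simp
  · rw [sv2, sv2, hor_neg]

/-! ### Rotation -/

theorem hor_rk (k : Fin 3 → ℤ) : hor (rk k) = hor k := by
  unfold hor
  rw [rk0, rk1]
  ring

theorem len_rk (k : Fin 3 → ℤ) : len (rk k) = len k := by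
  unfold len
  rw [rk0, rk1, rk2]
  ring

theorem P_rk (i : Fin 2) (k : Fin 3 → ℤ) : P i (rk k) = P i k := by
  unfold P
  rw [hor_rk, rk0, rk1, rk2]
  split_ifs
  · ring
  · ring

theorem O_rk (i : Fin 2) (k : Fin 3 → ℤ) : O i (rk k) = O i k := by
  unfold O
  rw [rk0, rk1, rk2]
  split_ifs
  · ring
  · ring

theorem mono_rk (s : Fin 2 × Fin 2 × Fin 2 × Fin 2) (k : Fin 3 → ℤ) :
    mono s (rk k) = mono s k := by
  unfold mono
  rw [len_rk, P_rk, O_rk, rk2, Even.neg_pow (even_two_mul _)]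

theorem scal_rk (θ : Fin 2 × Fin 2 × Fin 2 × Fin 2 → ℝ) (k : Fin 3 → ℤ) :
    scal θ (rk k) = scal θ k := by
  unfold scal
  refine Finset.sum_congr rfl (fun s _ => ?_)
  rw [mono_rk]

theorem qq_rk (k : Fin 3 → ℤ) : qq (rk k) = qq k := by
  unfold qq
  rw [len_rk, O_rk, O_rk]

theorem rr_rk (k : Fin 3 → ℤ) : rr (rk k) = -rr k := by
  unfold rr
  rw [len_rk, P_rk, rk0, rk1]
  push_cast
  ring

theorem tv_rk (k : Fin 3 → ℤ) : tv (rk k) = rx (tv k) := by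
  apply ext3
  · rw [tv0, rx0, tv1, rk1]
    push_cast
    ring
  · rw [tv1, rx1, tv0, rk0]
    ring
  · rw [tv2, rx2, tv2, neg_zero]

theorem sv_rk (k : Fin 3 → ℤ) : sv (rk k) = -rx (sv k) := by
  apply ext3
  · rw [PiLp.neg_apply, sv0, rx0, sv1, rk0, rk2]
    push_cast
    ring
  · rw [PiLp.neg_apply, sv1, rx1, sv0, rk1, rk2]
    push_cast
    ring
  · rw [PiLp.neg_apply, sv2, rx2, sv2, hor_rk]
    ring

end Symbol

open Pool.Agent.Work.MP_b0497c_an.Diff.Symbol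

theorem claimSymbol : ClaimSymbol := by
  intro θ Ω
  refine ⟨?_, ?_, ?_, ?_, ?_⟩
  · intro k b c
    unfold dsym
    simp only [inner_smul_left, inner_smul_right, inner_add_left, inner_add_right, conj_trivial]
    rw [real_inner_comm b (tv k), real_inner_comm b (sv k)]
    ring
  · intro k c h
    unfold dsym
    simp only [inner_smul_right, inner_add_right, vec_tv, vec_sv, h]
    simp
  · intro k c
    unfold dsym
    rw [scal_neg, qq_neg, rr_neg, tv_neg, sv_neg]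
    simp only [inner_neg_left, neg_smul, smul_neg, smul_add, neg_mul, mul_neg, neg_neg,
      neg_add_rev]
    abel
  · intro k c
    have e1 : ⟪tv (rk k), rx c⟫ = ⟪tv k, c⟫ := by rw [tv_rk, rx_inner]
    have e2 : ⟪sv (rk k), rx c⟫ = -⟪sv k, c⟫ := by rw [sv_rk, inner_neg_left, rx_inner]
    unfold dsym
    rw [e1, e2, scal_rk, qq_rk, rr_rk, tv_rk, sv_rk]
    simp only [rx_smul, rx_add, smul_add, smul_neg, neg_smul, neg_neg]
  · have hg : PG (fun k => Ω * (|scal θ k| + (|qq k| * (‖tv k‖ * ‖tv k‖) +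
        |rr k| * (2 * (‖tv k‖ * ‖sv k‖))))) := by
      exact (PG.const Ω).mul ((PG.scal θ).abs.add ((PG.qq.abs.mul (PG.tv.mul PG.tv)).add
        (PG.rr.abs.mul ((PG.const 2).mul (PG.tv.mul PG.sv)))))
    obtain ⟨C, s, hC⟩ := hg
    refine ⟨C, s, fun k c => ?_⟩
    refine le_trans ?_ (mul_le_mul_of_nonneg_right (hC k) (norm_nonneg c))
    have hc := norm_nonneg c
    have h1 : |⟪tv k, c⟫| ≤ ‖tv k‖ * ‖c‖ := abs_real_inner_le_norm _ _
    have h2 : |⟪sv k, c⟫| ≤ ‖sv k‖ * ‖c‖ := abs_real_inner_le_norm _ _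
    have ht := norm_nonneg (tv k)
    have hs := norm_nonneg (sv k)
    have b1 : ‖scal θ k • c‖ ≤ |scal θ k| * ‖c‖ := by
      rw [norm_smul, Real.norm_eq_abs]
    have b2 : ‖(qq k * ⟪tv k, c⟫) • tv k‖ ≤ |qq k| * (‖tv k‖ * ‖tv k‖) * ‖c‖ := by
      rw [norm_smul, Real.norm_eq_abs, abs_mul]
      calc |qq k| * |⟪tv k, c⟫| * ‖tv k‖ ≤ |qq k| * (‖tv k‖ * ‖c‖) * ‖tv k‖ := by gcongr
        _ = _ := by ring
    have b3 : ‖rr k • (⟪tv k, c⟫ • sv k + ⟪sv k, c⟫ • tv k)‖ ≤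
        |rr k| * (2 * (‖tv k‖ * ‖sv k‖)) * ‖c‖ := by
      rw [norm_smul, Real.norm_eq_abs]
      calc |rr k| * ‖⟪tv k, c⟫ • sv k + ⟪sv k, c⟫ • tv k‖
          ≤ |rr k| * ((‖tv k‖ * ‖c‖) * ‖sv k‖ + (‖sv k‖ * ‖c‖) * ‖tv k‖) := by
            gcongr
            refine (norm_add_le _ _).trans ?_
            rw [norm_smul, norm_smul, Real.norm_eq_abs, Real.norm_eq_abs]
            gcongr
        _ = _ := by ring
    show ‖Ω • dsym θ k c‖ ≤ _
    rw [norm_smul, Real.norm_eq_abs, abs_mul]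
    have hnn : 0 ≤ |scal θ k| + (|qq k| * (‖tv k‖ * ‖tv k‖) +
        |rr k| * (2 * (‖tv k‖ * ‖sv k‖))) := by positivity
    rw [abs_of_nonneg hnn, mul_assoc]
    gcongr
    unfold dsym
    calc _ ≤ ‖scal θ k • c‖ + (‖(qq k * ⟪tv k, c⟫) • tv k‖ +
          ‖rr k • (⟪tv k, c⟫ • sv k + ⟪sv k, c⟫ • tv k)‖) :=
          (norm_add_le _ _).trans (add_le_add_right (norm_add_le _ _) _)
      _ ≤ _ := by
          rw [add_mul, add_mul]
          exact add_le_add b1 (add_le_add b2 b3)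

end Pool.Agent.Work.MP_b0497c_an.Diff
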